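import Mathlib
import Pool.Agent.H33.BDFP.DStmts
import Pool.Agent.H33.BDFP.Ess

attribute [local instance] Pool.Agent.H33.BDFP.NV.instNACG Pool.Agent.H33.BDFP.NV.instModule
  Pool.Agent.H33.BDFP.NV.instNormedSpace Pool.Agent.H33.BDFP.NV.instFD
  Pool.Agent.H33.BDFP.NV.instComplete

set_option autoImplicit false

open scoped ENNReal InnerProductSpace

noncomputable section

namespace Pool.Agent.H20.BDFP

open Pool.Agent.H33.BDFP ContinuousLinearMap

/-! ### adjoints of compact operators -/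

lemma compact_adjoint {H H' : Type} [NormedAddCommGroup H] [InnerProductSpace ℂ H]
    [CompleteSpace H] [NormedAddCommGroup H'] [InnerProductSpace ℂ H'] [CompleteSpace H']
    (K : H →L[ℂ] H') (hK : IsCompactOperator (⇑K)) : IsCompactOperator (⇑(adjoint K)) := by
  refine (isCompactOperator_iff_isCompact_closure_image_closedBall
    (adjoint K : H' →L[ℂ] H).toLinearMap one_pos).2 ?_
  refine TotallyBounded.isCompact_of_isClosed ?_ isClosed_closure
  refine TotallyBounded.closure ?_
  have hL : IsCompactOperator (⇑(K ∘L adjoint K)) := hK.comp_clm (adjoint K)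
  have hL2 : TotallyBounded ((K ∘L adjoint K) '' Metric.closedBall 0 1) := by
    have h1 := (isCompactOperator_iff_isCompact_closure_image_closedBall
      (K ∘L adjoint K : H' →L[ℂ] H').toLinearMap one_pos).1 hL
    exact h1.totallyBounded.subset subset_closure
  rw [Metric.totallyBounded_iff]
  intro ε hε
  obtain ⟨t, ht, htf, htc⟩ := totallyBounded_iff_subset.1 hL2 _
    (Metric.dist_mem_uniformity (show 0 < ε ^ 2 / 2 by positivity))
  choose! g hg hg' using fun y (hy : y ∈ t) => ht hy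
  refine ⟨(fun y => adjoint K (g y)) '' t, htf.image _, ?_⟩
  rintro _ ⟨x, hx, rfl⟩
  have hx' : (K ∘L adjoint K) x ∈ (K ∘L adjoint K) '' Metric.closedBall 0 1 := ⟨x, hx, rfl⟩
  obtain ⟨y, hy, hxy⟩ := Set.mem_iUnion₂.1 (htc hx')
  refine Set.mem_iUnion₂.2 ⟨adjoint K (g y), ⟨y, hy, rfl⟩, ?_⟩
  rw [Metric.mem_ball, dist_eq_norm]
  change ‖adjoint K x - adjoint K (g y)‖ < ε
  rw [← map_sub]
  have hxy' : dist ((K ∘L adjoint K) x) y < ε ^ 2 / 2 := hxy
  rw [← hg' y hy, dist_eq_norm, ← map_sub] at hxy'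
  have h1 : ‖adjoint K (x - g y)‖ ^ 2 ≤ ‖(K ∘L adjoint K) (x - g y)‖ * ‖x - g y‖ := by
    have h2 : ((‖adjoint K (x - g y)‖ ^ 2 : ℝ) : ℂ) =
        ⟪(K ∘L adjoint K) (x - g y), x - g y⟫_ℂ := by
      rw [ContinuousLinearMap.comp_apply, ← ContinuousLinearMap.adjoint_inner_right,
        inner_self_eq_norm_sq_to_K]
      push_cast
      rfl
    have h3 : ‖adjoint K (x - g y)‖ ^ 2 = ‖⟪(K ∘L adjoint K) (x - g y), x - g y⟫_ℂ‖ := by
      rw [← h2, Complex.norm_real, Real.norm_of_nonneg (by positivity)]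
    rw [h3]
    exact norm_inner_le_norm _ _
  have h4 : ‖x - g y‖ ≤ 2 := by
    have a1 : ‖x‖ ≤ 1 := by simpa using hx
    have a2 : ‖g y‖ ≤ 1 := by simpa using hg y hy
    exact (norm_sub_le _ _).trans (by linarith)
  have h5 : ‖adjoint K (x - g y)‖ ^ 2 < ε ^ 2 := by
    have h6 : ‖(K ∘L adjoint K) (x - g y)‖ * ‖x - g y‖ ≤
        ‖(K ∘L adjoint K) (x - g y)‖ * 2 := mul_le_mul_of_nonneg_left h4 (norm_nonneg _)
    linarith
  exact lt_of_pow_lt_pow_left₀ 2 hε.le h5

lemma EqK_adjoint {H H' : Type} [NormedAddCommGroup H] [InnerProductSpace ℂ H]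
    [CompleteSpace H] [NormedAddCommGroup H'] [InnerProductSpace ℂ H'] [CompleteSpace H']
    {S T : H →L[ℂ] H'} (h : EqK S T) : EqK (adjoint S) (adjoint T) := by
  have h1 := compact_adjoint (S - T) h
  rw [map_sub] at h1
  exact h1

lemma findex_equiv {X Y : Type} [NormedAddCommGroup X] [NormedSpace ℂ X]
    [NormedAddCommGroup Y] [NormedSpace ℂ Y] (U : X →L[ℂ] Y) (h : Function.Bijective U) :
    findex U = 0 := by
  unfold findex
  have h1 : LinearMap.ker U.toLinearMap = ⊥ := LinearMap.ker_eq_bot.2 h.1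
  have h2 : LinearMap.range U.toLinearMap = ⊤ := LinearMap.range_eq_top.2 h.2
  rw [h1, h2, finrank_bot]
  have h3 : Module.finrank ℂ (Y ⧸ (⊤ : Submodule ℂ Y)) = 0 := by
    have : Subsingleton (Y ⧸ (⊤ : Submodule ℂ Y)) := Submodule.Quotient.subsingleton_iff.2 rfl
    exact Module.finrank_zero_of_subsingleton
  rw [h3]
  simp

/-! ### separability -/

lemma separable_lp (r : ℕ → ℕ) : TopologicalSpace.SeparableSpace (ZP r 2) := by
  rw [← TopologicalSpace.isSeparable_univ_iff]
  set S : Set (ZP r 2) := ⋃ n, Set.range (fun x : EuclideanSpace ℂ (Fin (r n)) =>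
    (lp.single 2 n x : ZP r 2)) with hS
  have h1 : TopologicalSpace.IsSeparable S := by
    refine TopologicalSpace.IsSeparable.iUnion fun n => ?_
    refine TopologicalSpace.isSeparable_range ?_
    have h2 : Isometry (fun x : EuclideanSpace ℂ (Fin (r n)) => (lp.single 2 n x : ZP r 2)) := by
      refine Isometry.of_dist_eq fun x y => ?_
      rw [dist_eq_norm, dist_eq_norm, ← lp.single_sub, lp.norm_single (by norm_num)]
    exact h2.continuous
  have h2 := (h1.span (R := ℂ)).closure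
  refine h2.mono ?_
  intro f _
  have h3 := lp.hasSum_single (p := 2) (E := fun n => EuclideanSpace ℂ (Fin (r n)))
    (by norm_num) f
  refine mem_closure_of_tendsto h3 (Filter.Eventually.of_forall fun s => ?_)
  refine Submodule.sum_mem _ fun n _ => Submodule.subset_span ?_
  exact Set.mem_iUnion.2 ⟨n, f n, rfl⟩

/-! ### adjoints of diagonal operators -/

lemma adjoint_diagRep {M : Set ℂ} [CompactSpace M] {r : ℕ → ℕ} (v : ∀ n, Fin (r n) → M)
    (a : C(M, ℂ)) : adjoint ((diagRep v 2).hom a) = (diagRep v 2).hom (star a) := by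
  symm
  rw [ContinuousLinearMap.eq_adjoint_iff]
  intro x y
  rw [lp.inner_eq_tsum, lp.inner_eq_tsum]
  congr 1
  funext n
  rw [PiLp.inner_apply, PiLp.inner_apply]
  refine Finset.sum_congr rfl fun i _ => ?_
  rw [diagRep_apply, diagRep_apply]
  simp only [RCLike.inner_apply, ContinuousMap.star_apply]
  rw [map_mul]
  simp
  ring

end Pool.Agent.H20.BDFP
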