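import Mathlib
import Pool.Agent.H33.BDFP.DStmts
import Pool.Agent.H33.BDFP.Ess
import Pool.Agent.H20.BDFP.HIL1

attribute [local instance] Pool.Agent.H33.BDFP.NV.instNACG Pool.Agent.H33.BDFP.NV.instModule
  Pool.Agent.H33.BDFP.NV.instNormedSpace Pool.Agent.H33.BDFP.NV.instFD
  Pool.Agent.H33.BDFP.NV.instComplete

set_option autoImplicit false

open scoped ENNReal InnerProductSpace

noncomputable section

namespace Pool.Agent.H20.BDFP

open Pool.Agent.H33.BDFP ContinuousLinearMap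

section Abs

variable {M : Set ℂ} [CompactSpace M] {X H : Type} [NormedAddCommGroup X]
  [InnerProductSpace ℂ X] [CompleteSpace X] [NormedAddCommGroup H] [InnerProductSpace ℂ H]
  [CompleteSpace H]

/-- the compression -/
def Ta (ρ : Rep M X) (i : H →L[ℂ] X) (q : X →L[ℂ] H) (a : C(M, ℂ)) : H →L[ℂ] H :=
  q ∘L ρ.hom a ∘L i

/-- the data of a corner -/
structure CD (ρ : Rep M X) (e : X →L[ℂ] X) (i : H →L[ℂ] X) (q : X →L[ℂ] H) : Prop where
  cor : ∀ a, EqK (e ∘L ρ.hom a) (ρ.hom a ∘L e)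
  qi : q ∘L i = ContinuousLinearMap.id ℂ H
  iq : i ∘L q = e
  ii : adjoint i ∘L i = ContinuousLinearMap.id ℂ H
  adj : ∀ a, adjoint (ρ.hom a) = ρ.hom (star a)

variable {ρ : Rep M X} {e : X →L[ℂ] X} {i : H →L[ℂ] X} {q : X →L[ℂ] H}

lemma CD.qi' (h : CD ρ e i q) (x : H) : q (i x) = x :=
  congrArg (fun T : H →L[ℂ] H => T x) h.qi

lemma CD.iq' (h : CD ρ e i q) (x : X) : i (q x) = e x :=
  congrArg (fun T : X →L[ℂ] X => T x) h.iq

lemma CD.ei (h : CD ρ e i q) (x : H) : e (i x) = i x := by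
  rw [← h.iq', h.qi']

lemma CD.qe (h : CD ρ e i q) (x : X) : q (e x) = q x := by
  rw [← h.iq', h.qi']

lemma CD.ee (h : CD ρ e i q) (x : X) : e (e x) = e x := by
  rw [← h.iq' (e x), h.qe, h.iq']

omit [CompleteSpace X] [CompleteSpace H] in
lemma Ta_apply (a : C(M, ℂ)) (x : H) : Ta ρ i q a x = q (ρ.hom a (i x)) := rfl

omit [CompleteSpace X] [CompleteSpace H] in
lemma Ta_add (a b : C(M, ℂ)) : Ta ρ i q (a + b) = Ta ρ i q a + Ta ρ i q b := by
  refine ContinuousLinearMap.ext fun x => ?_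
  rw [add_apply, Ta_apply, Ta_apply, Ta_apply, map_add]
  rw [add_apply, map_add]

omit [CompleteSpace X] [CompleteSpace H] in
lemma Ta_smul (c : ℂ) (a : C(M, ℂ)) : Ta ρ i q (c • a) = c • Ta ρ i q a := by
  refine ContinuousLinearMap.ext fun x => ?_
  rw [smul_apply, Ta_apply, Ta_apply, map_smul]
  rw [smul_apply, map_smul]

lemma Ta_one (h : CD ρ e i q) : Ta ρ i q 1 = ContinuousLinearMap.id ℂ H := by
  refine ContinuousLinearMap.ext fun x => ?_
  rw [Ta_apply, map_one]
  exact h.qi' x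

/-- commuting the compression past the inclusion -/
lemma comm_i (h : CD ρ e i q) (a : C(M, ℂ)) : EqK (ρ.hom a ∘L i) (i ∘L Ta ρ i q a) := by
  have h1 := (h.cor a).symm.comp_right i
  have e1 : (ρ.hom a ∘L e) ∘L i = ρ.hom a ∘L i := by
    refine ContinuousLinearMap.ext fun x => ?_
    change ρ.hom a (e (i x)) = ρ.hom a (i x)
    rw [h.ei]
  have e2 : (e ∘L ρ.hom a) ∘L i = i ∘L Ta ρ i q a := by
    refine ContinuousLinearMap.ext fun x => ?_
    change e (ρ.hom a (i x)) = i (q (ρ.hom a (i x)))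
    rw [h.iq']
  rw [e1, e2] at h1
  exact h1

/-- commuting the compression past the projection -/
lemma comm_q (h : CD ρ e i q) (a : C(M, ℂ)) : EqK (q ∘L ρ.hom a) (Ta ρ i q a ∘L q) := by
  have h1 := (h.cor a).comp_left q
  have e1 : q ∘L (e ∘L ρ.hom a) = q ∘L ρ.hom a := by
    refine ContinuousLinearMap.ext fun x => ?_
    change q (e (ρ.hom a x)) = q (ρ.hom a x)
    rw [h.qe]
  have e2 : q ∘L (ρ.hom a ∘L e) = Ta ρ i q a ∘L q := by
    refine ContinuousLinearMap.ext fun x => ?_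
    change q (ρ.hom a (e x)) = q (ρ.hom a (i (q x)))
    rw [h.iq']
  rw [e1, e2] at h1
  exact h1

lemma Ta_mul (h : CD ρ e i q) (a b : C(M, ℂ)) :
    EqK (Ta ρ i q a ∘L Ta ρ i q b) (Ta ρ i q (a * b)) := by
  have h1 := ((comm_i h b).symm.comp_left (ρ.hom a)).comp_left q
  have e1 : q ∘L (ρ.hom a ∘L (i ∘L Ta ρ i q b)) = Ta ρ i q a ∘L Ta ρ i q b := rfl
  have e2 : q ∘L (ρ.hom a ∘L (ρ.hom b ∘L i)) = Ta ρ i q (a * b) := by
    refine ContinuousLinearMap.ext fun x => ?_
    change q (ρ.hom a (ρ.hom b (i x))) = q (ρ.hom (a * b) (i x))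
    rw [map_mul]
    rfl
  rw [e1, e2] at h1
  exact h1

lemma Ta_star (h : CD ρ e i q) (a : C(M, ℂ)) :
    EqK (adjoint (Ta ρ i q a)) (Ta ρ i q (star a)) := by
  -- `adjoint q = adjoint e ∘ i`
  have e1 : adjoint e ∘L i = adjoint q := by
    have e2 : adjoint e = adjoint q ∘L adjoint i := by
      rw [← ContinuousLinearMap.adjoint_comp, h.iq]
    rw [e2, ContinuousLinearMap.comp_assoc, h.ii, ContinuousLinearMap.comp_id]
  have e3 : adjoint (Ta ρ i q a) = adjoint i ∘L (ρ.hom (star a) ∘L adjoint e) ∘L i := by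
    unfold Ta
    rw [ContinuousLinearMap.adjoint_comp, ContinuousLinearMap.adjoint_comp, h.adj, ← e1]
    rfl
  have e4 : EqK (ρ.hom (star a) ∘L adjoint e) (adjoint e ∘L ρ.hom (star a)) := by
    have h1 := EqK_adjoint (h.cor a)
    rw [ContinuousLinearMap.adjoint_comp, ContinuousLinearMap.adjoint_comp, h.adj] at h1
    exact h1
  have e5 : adjoint i ∘L (adjoint e ∘L ρ.hom (star a)) ∘L i =
      adjoint i ∘L (ρ.hom (star a) ∘L i) := by
    have e6 : adjoint i ∘L adjoint e = adjoint i := by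
      rw [← ContinuousLinearMap.adjoint_comp]
      congr 1
      exact ContinuousLinearMap.ext fun x => h.ei x
    calc adjoint i ∘L (adjoint e ∘L ρ.hom (star a)) ∘L i
        = (adjoint i ∘L adjoint e) ∘L (ρ.hom (star a) ∘L i) := rfl
      _ = _ := by rw [e6]
  have e7 : EqK (adjoint i ∘L (ρ.hom (star a) ∘L i)) (adjoint i ∘L (i ∘L Ta ρ i q (star a))) :=
    (comm_i h (star a)).comp_left _
  have e8 : adjoint i ∘L (i ∘L Ta ρ i q (star a)) = Ta ρ i q (star a) := by
    rw [← ContinuousLinearMap.comp_assoc, h.ii, ContinuousLinearMap.id_comp]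
  rw [e8] at e7
  rw [e3]
  refine EqK.trans ?_ e7
  rw [← e5]
  exact (e4.comp_right i).comp_left _

lemma star_mul_comm (h : CD ρ e i q) (a : C(M, ℂ)) :
    EqK (adjoint (Ta ρ i q a) ∘L Ta ρ i q a) (Ta ρ i q a ∘L adjoint (Ta ρ i q a)) := by
  have h1 := ((Ta_star h a).comp_right (Ta ρ i q a)).trans (Ta_mul h (star a) a)
  have h2 := ((Ta_star h a).comp_left (Ta ρ i q a)).trans (Ta_mul h a (star a))
  rw [mul_comm] at h1
  exact h1.trans h2.symm

lemma Ta_sub_smul (h : CD ρ e i q) (a : C(M, ℂ)) (μ : ℂ) :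
    Ta ρ i q (a - μ • 1) = Ta ρ i q a - μ • ContinuousLinearMap.id ℂ H := by
  have h1 := Ta_add (ρ := ρ) (i := i) (q := q) (a - μ • 1) (μ • 1)
  rw [sub_add_cancel, Ta_smul, Ta_one h] at h1
  rw [h1, add_sub_cancel_right]

lemma Ta_essInv (h : CD ρ e i q) {μ : ℂ} (hμ : μ ∉ M) :
    EssInv (Ta ρ i q (zfun M) - μ • ContinuousLinearMap.id ℂ H) := by
  have hne : ∀ z : M, (zfun M - μ • 1 : C(M, ℂ)) z ≠ 0 := by
    intro z h0
    have : (z : ℂ) - μ = 0 := by simpa [zfun] using h0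
    exact hμ (by rw [← sub_eq_zero.1 this]; exact z.2)
  set g : C(M, ℂ) := ⟨fun z => ((zfun M - μ • 1 : C(M, ℂ)) z)⁻¹,
    (ContinuousMap.continuous _).inv₀ hne⟩ with hg
  have hg1 : g * (zfun M - μ • 1) = 1 := by
    ext z
    exact inv_mul_cancel₀ (hne z)
  refine ⟨Ta ρ i q g, ?_, ?_⟩
  · rw [← Ta_sub_smul h]
    have h1 := Ta_mul h g (zfun M - μ • 1)
    rw [hg1, Ta_one h] at h1
    exact h1
  · rw [← Ta_sub_smul h]
    have h1 := Ta_mul h (zfun M - μ • 1) g
    rw [mul_comm, hg1, Ta_one h] at h1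
    exact h1

lemma corner_eq (h : CD ρ e i q) (μ : ℂ) (x : X) : cornerOp ρ e μ x =
    i ((Ta ρ i q (zfun M) - μ • ContinuousLinearMap.id ℂ H) (q x)) + (x - e x) := by
  change e ((ρ.hom (zfun M) - μ • ContinuousLinearMap.id ℂ X) (e x)) + (x - e x) = _
  congr 1
  rw [sub_apply, sub_apply, map_sub, map_sub]
  congr 1
  · rw [Ta_apply, h.iq', h.iq']
  · change e (μ • e x) = i (μ • q x)
    rw [map_smul, map_smul, h.ee, h.iq']

/-- the index -/
lemma Ta_indexZero (hIX : IXStmt) (hAP : APStmt) (h : CD ρ e i q) {μ : ℂ} (hμ : μ ∉ M)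
    (hI : IndexZero (cornerOp ρ e μ)) :
    IndexZero (Ta ρ i q (zfun M) - μ • ContinuousLinearMap.id ℂ H) := by
  set S := Ta ρ i q (zfun M) - μ • ContinuousLinearMap.id ℂ H with hS
  have hSi : EssInv S := Ta_essInv h hμ
  have apX : AP X := hAP.2.1 X
  have apH : AP H := hAP.2.1 H
  have hC : EssInv (cornerOp ρ e μ) := hI.essInv
  -- index of the corner
  have i1 : findex (cornerOp ρ e μ) = 0 := by
    obtain ⟨U, hU⟩ := hI
    have h1 := (hIX.2.1 X X apX apX (U : X →L[ℂ] X) (cornerOp ρ e μ)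
      ⟨((U⁻¹ : (X →L[ℂ] X)ˣ) : X →L[ℂ] X), EqK.of_eq U.inv_mul, EqK.of_eq U.mul_inv⟩ hU).2
    rw [← h1]
    exact findex_equiv _ (ContinuousLinearEquiv.ofUnit U).bijective
  have i2 : findex (ContinuousLinearMap.id ℂ X) = 0 := findex_equiv _ Function.bijective_id
  have i3 : findex (ContinuousLinearMap.id ℂ H) = 0 := findex_equiv _ Function.bijective_id
  have eX : EssInv (ContinuousLinearMap.id ℂ X) :=
    ⟨ContinuousLinearMap.id ℂ X, EqK.of_eq rfl, EqK.of_eq rfl⟩
  have eH : EssInv (ContinuousLinearMap.id ℂ H) :=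
    ⟨ContinuousLinearMap.id ℂ H, EqK.of_eq rfl, EqK.of_eq rfl⟩
  have a1 := hIX.2.2.1 H H X X apH apH apX apX S (ContinuousLinearMap.id ℂ X) hSi eX
  have a2 := hIX.2.2.1 H H X X apH apH apX apX (ContinuousLinearMap.id ℂ H) (cornerOp ρ e μ)
    eH hC
  -- the swap
  set u : (H × X) →L[ℂ] (H × X) :=
    (q ∘L ContinuousLinearMap.snd ℂ H X).prod (i ∘L ContinuousLinearMap.fst ℂ H X +
      (ContinuousLinearMap.id ℂ X - e) ∘L ContinuousLinearMap.snd ℂ H X) with hu
  have hua : ∀ x : H × X, u x = (q x.2, i x.1 + (x.2 - e x.2)) := fun x => rfl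
  have hee : ∀ x, e (e x) = e x := h.ee
  have huu : ∀ x, u (u x) = x := by
    rintro ⟨x, y⟩
    rw [hua, hua]
    simp only [map_add, map_sub, h.qi', h.qe, h.ei, h.iq', hee, sub_self, add_zero]
    congr 1
    abel
  set ue : (H × X) ≃L[ℂ] (H × X) := ContinuousLinearEquiv.equivOfInverse u u huu huu with hue
  have a3 := hIX.2.2.2 (H × X) (H × X) (H × X) (H × X)
    (S.prodMap (ContinuousLinearMap.id ℂ X)) ue ue
  have a4 : (ue : (H × X) →L[ℂ] (H × X)) ∘L (S.prodMap (ContinuousLinearMap.id ℂ X)) ∘L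
      (ue : (H × X) →L[ℂ] (H × X)) =
      (ContinuousLinearMap.id ℂ H).prodMap (cornerOp ρ e μ) := by
    refine ContinuousLinearMap.ext ?_
    rintro ⟨x, y⟩
    change u ((S.prodMap (ContinuousLinearMap.id ℂ X)) (u (x, y))) = (x, cornerOp ρ e μ y)
    rw [corner_eq h, ← hS, hua]
    change u (S (q y), i x + (y - e y)) = _
    rw [hua]
    simp only [map_add, map_sub, h.qi', h.qe, h.ei, hee, sub_self, add_zero]
    congr 1
    abel
  rw [a4, a2, a1, i1, i2, i3] at a3
  have i4 : findex S = 0 := by simpa using a3.symm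
  obtain ⟨U, hU⟩ := hIX.1 H H apH apH S hSi i4
  exact ⟨ContinuousLinearEquiv.toUnit U, hU⟩

lemma not_essInv (h : CD ρ e i q) {μ : ℂ} (hI : ¬ EssInv (cornerOp ρ e μ)) :
    ¬ EssInv (Ta ρ i q (zfun M) - μ • ContinuousLinearMap.id ℂ H) := by
  rintro ⟨R, h1, h2⟩
  refine hI ⟨i ∘L R ∘L q + (ContinuousLinearMap.id ℂ X - e), ?_, ?_⟩
  · have h3 := ((h1.comp_right q).comp_left i).add
      (EqK.refl (ContinuousLinearMap.id ℂ X - e))
    have e1 : i ∘L ((R ∘L (Ta ρ i q (zfun M) - μ • ContinuousLinearMap.id ℂ H)) ∘L q) +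
        (ContinuousLinearMap.id ℂ X - e) =
        (i ∘L R ∘L q + (ContinuousLinearMap.id ℂ X - e)) ∘L cornerOp ρ e μ := by
      refine ContinuousLinearMap.ext fun x => ?_
      rw [ContinuousLinearMap.comp_apply, corner_eq h]
      generalize (Ta ρ i q (zfun M) - μ • ContinuousLinearMap.id ℂ H) = S
      change i (R (S (q x))) + (x - e x) = i (R (q (i (S (q x)) + (x - e x)))) +
        ((i (S (q x)) + (x - e x)) - e (i (S (q x)) + (x - e x)))
      have hee : ∀ x, e (e x) = e x := h.ee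
      simp only [map_add, map_sub, h.qi', h.qe, h.ei, hee, sub_self, add_zero]
      abel
    have e2 : i ∘L ((ContinuousLinearMap.id ℂ H) ∘L q) + (ContinuousLinearMap.id ℂ X - e) =
        ContinuousLinearMap.id ℂ X := by
      refine ContinuousLinearMap.ext fun x => ?_
      change i (q x) + (x - e x) = x
      rw [h.iq']
      abel
    rw [e1, e2] at h3
    exact h3
  · have h3 := ((h2.comp_right q).comp_left i).add
      (EqK.refl (ContinuousLinearMap.id ℂ X - e))
    have e1 : i ∘L (((Ta ρ i q (zfun M) - μ • ContinuousLinearMap.id ℂ H) ∘L R) ∘L q) +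
        (ContinuousLinearMap.id ℂ X - e) =
        cornerOp ρ e μ ∘L (i ∘L R ∘L q + (ContinuousLinearMap.id ℂ X - e)) := by
      refine ContinuousLinearMap.ext fun x => ?_
      rw [ContinuousLinearMap.comp_apply, corner_eq h]
      generalize (Ta ρ i q (zfun M) - μ • ContinuousLinearMap.id ℂ H) = S
      change i (S (R (q x))) + (x - e x) = i (S (q (i (R (q x)) + (x - e x)))) +
        ((i (R (q x)) + (x - e x)) - e (i (R (q x)) + (x - e x)))
      have hee : ∀ x, e (e x) = e x := h.ee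
      simp only [map_add, map_sub, h.qi', h.qe, h.ei, hee, sub_self, add_zero]
      abel
    have e2 : i ∘L ((ContinuousLinearMap.id ℂ H) ∘L q) + (ContinuousLinearMap.id ℂ X - e) =
        ContinuousLinearMap.id ℂ X := by
      refine ContinuousLinearMap.ext fun x => ?_
      change i (q x) + (x - e x) = x
      rw [h.iq']
      abel
    rw [e1, e2] at h3
    exact h3

/-- Stone-Weierstrass: two multiplicative families agreeing mod K at `z` agree mod K. -/
lemma sw_eq (h : CD ρ e i q) (Δ : Rep M H) (hΔ : ∀ a, adjoint (Δ.hom a) = Δ.hom (star a))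
    (hz : EqK (Ta ρ i q (zfun M)) (Δ.hom (zfun M))) (a : C(M, ℂ)) :
    EqK (Ta ρ i q a) (Δ.hom a) := by
  set A : StarSubalgebra ℂ C(M, ℂ) :=
    { carrier := {a | EqK (Ta ρ i q a) (Δ.hom a)}
      mul_mem' := fun {a b} ha hb => by
        have h1 := (Ta_mul h a b).symm.trans (EqK.comp ha hb)
        change EqK (Ta ρ i q (a * b)) (Δ.hom (a * b))
        rw [map_mul]
        exact h1
      add_mem' := fun {a b} ha hb => by
        change EqK (Ta ρ i q (a + b)) (Δ.hom (a + b))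
        rw [map_add, Ta_add]
        exact ha.add hb
      algebraMap_mem' := fun c => by
        change EqK (Ta ρ i q (algebraMap ℂ C(M, ℂ) c)) (Δ.hom (algebraMap ℂ C(M, ℂ) c))
        rw [Algebra.algebraMap_eq_smul_one, Ta_smul, Ta_one h, map_smul, map_one]
        exact EqK.refl _
      star_mem' := fun {a} ha => by
        change EqK (Ta ρ i q (star a)) (Δ.hom (star a))
        rw [← hΔ]
        exact (Ta_star h a).symm.trans (EqK_adjoint ha) } with hA
  have hcl : IsClosed (A : Set C(M, ℂ)) := by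
    have hcont : Continuous (fun a : C(M, ℂ) => Ta ρ i q a - Δ.hom a) := by
      obtain ⟨C, hC⟩ := ρ.bdd
      obtain ⟨D, hD⟩ := Δ.bdd
      have l1 : Continuous (fun a : C(M, ℂ) => ρ.hom a) :=
        (LinearMap.mkContinuous ρ.hom.toLinearMap C hC).continuous
      have l2 : Continuous (fun a : C(M, ℂ) => Δ.hom a) :=
        (LinearMap.mkContinuous Δ.hom.toLinearMap D hD).continuous
      refine Continuous.sub ?_ l2
      unfold Ta
      exact continuous_const.clm_comp (l1.clm_comp continuous_const)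
    exact (isClosed_setOfPred_isCompactOperator (M₁ := H) (M₂ := H)
      (σ₁₂ := RingHom.id ℂ)).preimage hcont
  have hsep : A.SeparatesPoints := by
    intro x y hxy
    refine ⟨zfun M, ⟨zfun M, hz, rfl⟩, ?_⟩
    intro h0
    exact hxy (Subtype.ext h0)
  have htop := ContinuousMap.starSubalgebra_topologicalClosure_eq_top_of_separatesPoints A hsep
  have ha : a ∈ A.topologicalClosure := by rw [htop]; trivial
  have hle : A.topologicalClosure ≤ A := StarSubalgebra.topologicalClosure_minimal le_rfl hcl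
  exact hle ha

end Abs

end Pool.Agent.H20.BDFP
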