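import Mathlib
import Pool.Agent.H33.BDFP.DStmts
import Pool.Agent.H33.BDFP.Ess
import Pool.Agent.H20.BDFP.HIL1
import Pool.Agent.H20.BDFP.HIL2

attribute [local instance] Pool.Agent.H33.BDFP.NV.instNACG Pool.Agent.H33.BDFP.NV.instModule
  Pool.Agent.H33.BDFP.NV.instNormedSpace Pool.Agent.H33.BDFP.NV.instFD
  Pool.Agent.H33.BDFP.NV.instComplete

set_option autoImplicit false

open scoped ENNReal InnerProductSpace

noncomputable section

namespace Pool.Agent.H20.BDFP

open Pool.Agent.H33.BDFP ContinuousLinearMap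

/-! ### the identification of `l^2` with `ZP (fun _ => 1) 2` -/

/-- a scalar as a vector in `C^1` -/
def up1 : ℂ →L[ℂ] EuclideanSpace ℂ (Fin 1) :=
  LinearMap.toContinuousLinearMap
    { toFun := fun c => WithLp.toLp 2 (fun _ => c)
      map_add' := fun x y => by ext i; simp
      map_smul' := fun c x => by ext i; simp }

lemma up1_apply (c : ℂ) (i : Fin 1) : up1 c i = c := rfl

/-- a vector in `C^1` as a scalar -/
def dn1 : EuclideanSpace ℂ (Fin 1) →L[ℂ] ℂ :=
  LinearMap.toContinuousLinearMap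
    { toFun := fun x => x 0
      map_add' := fun x y => by simp
      map_smul' := fun c x => by simp }

lemma dn1_apply (x : EuclideanSpace ℂ (Fin 1)) : dn1 x = x 0 := rfl

lemma norm_up1 : ‖up1‖ ≤ 1 := by
  refine ContinuousLinearMap.opNorm_le_bound _ zero_le_one fun x => ?_
  rw [EuclideanSpace.norm_eq, one_mul]
  simp [up1_apply]

lemma norm_dn1 : ‖dn1‖ ≤ 1 := by
  refine ContinuousLinearMap.opNorm_le_bound _ zero_le_one fun x => ?_
  rw [EuclideanSpace.norm_eq, one_mul, dn1_apply]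
  simp

/-- upwards -/
def JJu : lp (fun _ : ℕ => ℂ) 2 →L[ℂ] ZP (fun _ => 1) 2 :=
  lp.mapCLM 2 (fun _ => up1) zero_le_one (fun _ => norm_up1)

/-- downwards -/
def JJd : ZP (fun _ => 1) 2 →L[ℂ] lp (fun _ : ℕ => ℂ) 2 :=
  lp.mapCLM 2 (fun _ => dn1) zero_le_one (fun _ => norm_dn1)

lemma JJu_apply (x : lp (fun _ : ℕ => ℂ) 2) (n : ℕ) (i : Fin 1) : JJu x n i = x n := rfl

lemma JJd_apply (x : ZP (fun _ => 1) 2) (n : ℕ) : JJd x n = x n 0 := rfl

lemma JJdu (x : lp (fun _ : ℕ => ℂ) 2) : JJd (JJu x) = x :=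
  lp.ext (funext fun _ => rfl)

lemma JJud (x : ZP (fun _ => 1) 2) : JJu (JJd x) = x := by
  refine lp.ext (funext fun n => ?_)
  refine PiLp.ext fun i => ?_
  rw [JJu_apply, JJd_apply]
  fin_cases i
  rfl

/-- the isometry -/
def JJ1 : lp (fun _ : ℕ => ℂ) 2 ≃ₗᵢ[ℂ] ZP (fun _ => 1) 2 where
  toLinearEquiv := LinearEquiv.ofLinearMap JJu.toLinearMap JJd.toLinearMap
    (LinearMap.ext JJud) (LinearMap.ext JJdu)
  norm_map' x := by
    change ‖JJu x‖ = ‖x‖
    refine le_antisymm ?_ ?_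
    · have h1 := lp.norm_mapCLM_le (E := fun _ : ℕ => ℂ)
        (F := fun _ : ℕ => EuclideanSpace ℂ (Fin 1)) 2 (fun _ => up1) zero_le_one
        (fun _ => norm_up1)
      have h2 := (JJu).le_of_opNorm_le h1 x
      rwa [one_mul] at h2
    · have h1 := lp.norm_mapCLM_le (E := fun _ : ℕ => EuclideanSpace ℂ (Fin 1))
        (F := fun _ : ℕ => ℂ) 2 (fun _ => dn1) zero_le_one
        (fun _ => norm_dn1)
      have h2 := (JJd).le_of_opNorm_le h1 (JJu x)
      rwa [one_mul, JJdu] at h2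

lemma JJ1_apply (x : lp (fun _ : ℕ => ℂ) 2) (n : ℕ) (i : Fin 1) : JJ1 x n i = x n := rfl

/-- Module HIL. -/
theorem hil (hB : BdfStmt) (hIX : IXStmt) (hAP : APStmt) : HilStmt := by
  intro M _ r v e hc hI hE hM
  set H0 : Submodule ℂ (ZP r 2) :=
    LinearMap.ker ((ContinuousLinearMap.id ℂ (ZP r 2) - e).toLinearMap) with hH0
  have hmem : ∀ x : ZP r 2, x ∈ H0 ↔ e x = x := by
    intro x
    rw [hH0, LinearMap.mem_ker]
    change x - e x = 0 ↔ _
    rw [sub_eq_zero, eq_comm]
  have hee : ∀ x, e (e x) = e x := fun x => congrArg (fun T : ZP r 2 →L[ℂ] ZP r 2 => T x) hc.1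
  have hcl : IsClosed (H0 : Set (ZP r 2)) :=
    ContinuousLinearMap.isClosed_ker (ContinuousLinearMap.id ℂ (ZP r 2) - e)
  have cs : CompleteSpace H0 := hcl.completeSpace_coe
  have ss : TopologicalSpace.SeparableSpace H0 := by
    have h1 := separable_lp r
    have h2 : TopologicalSpace.IsSeparable (H0 : Set (ZP r 2)) :=
      (TopologicalSpace.isSeparable_univ_iff.2 h1).mono (Set.subset_univ _)
    exact h2.separableSpace
  set i : H0 →L[ℂ] ZP r 2 := H0.subtypeL with hi
  set q : ZP r 2 →L[ℂ] H0 := e.codRestrict H0 (fun x => (hmem _).2 (hee x)) with hq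
  have cd : CD (diagRep v 2) e i q := by
    refine ⟨hc.2, ?_, ?_, ?_, adjoint_diagRep v⟩
    · refine ContinuousLinearMap.ext fun x => Subtype.ext ?_
      exact (hmem _).1 x.2
    · exact ContinuousLinearMap.ext fun x => rfl
    · refine ContinuousLinearMap.ext fun x => ext_inner_right ℂ fun y => ?_
      rw [ContinuousLinearMap.comp_apply, ContinuousLinearMap.adjoint_inner_left]
      rfl
  have hfd : ¬ FiniteDimensional ℂ H0 := by
    intro hf
    obtain ⟨μ, hμ⟩ := hM
    refine not_essInv cd (hE μ hμ) ?_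
    have : ProperSpace H0 := FiniteDimensional.proper ℂ H0
    have hall : ∀ S T : H0 →L[ℂ] H0, EqK S T := fun S T =>
      isCompactOperator_of_locallyCompactSpace_dom (S - T)
    exact ⟨0, hall _ _, hall _ _⟩
  obtain ⟨b, μ, D, hμM, hD, hTD⟩ := hB H0 hfd M (isCompact_iff_compactSpace.2 inferInstance) hM
    (Ta (diagRep v 2) i q (zfun M)) (star_mul_comm cd (zfun M))
    (fun μ hμ => Ta_indexZero hIX hAP cd hμ (hI μ hμ))
    (fun μ hμ => not_essInv cd (hE μ hμ))
  set μ' : ℕ → M := fun n => ⟨μ n, hμM n⟩ with hμ'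
  set δ : Rep M (ZP (fun _ => 1) 2) := diagRep (fun n (_ : Fin 1) => μ' n) 2 with hδ
  set V : H0 ≃ₗᵢ[ℂ] ZP (fun _ => 1) 2 := b.repr.trans JJ1 with hV
  set Δ : Rep M H0 := δ.conj V.toContinuousLinearEquiv.symm with hΔ
  have hΔa : ∀ a x, Δ.hom a x = V.symm (δ.hom a (V x)) := fun a x => rfl
  have hΔadj : ∀ a, adjoint (Δ.hom a) = Δ.hom (star a) := by
    intro a
    symm
    rw [ContinuousLinearMap.eq_adjoint_iff]
    intro x y
    rw [hΔa, hΔa]
    have e1 : ⟪V.symm (δ.hom (star a) (V x)), y⟫_ℂ = ⟪δ.hom (star a) (V x), V y⟫_ℂ := by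
      rw [← V.inner_map_map, V.apply_symm_apply]
    have e2 : ⟪x, V.symm (δ.hom a (V y))⟫_ℂ = ⟪V x, δ.hom a (V y)⟫_ℂ := by
      rw [← V.inner_map_map, V.apply_symm_apply]
    rw [e1, e2, ← adjoint_diagRep, ContinuousLinearMap.adjoint_inner_left]
  have hDΔ : D = Δ.hom (zfun M) := by
    refine ContinuousLinearMap.ext_on (s := Set.range b) ?_ ?_
    · have h1 := b.dense_span
      exact (Submodule.dense_iff_topologicalClosure_eq_top).2 h1
    · rintro _ ⟨n, rfl⟩
      rw [hD, hΔa]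
      have e1 : δ.hom (zfun M) (V (b n)) = μ n • V (b n) := by
        refine lp.ext (funext fun k => PiLp.ext fun j => ?_)
        rw [hδ, diagRep_apply]
        have e2 : (V (b n)) k j = if k = n then 1 else 0 := by
          change JJ1 (b.repr (b n)) k j = _
          rw [JJ1_apply, HilbertBasis.repr_self, lp.single_apply]
          by_cases hk : k = n
          · subst hk; simp
          · rw [if_neg hk, Pi.single_eq_of_ne hk]
        have e3 : (μ n • V (b n)) k j = μ n * (V (b n)) k j := rfl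
        rw [e3, e2]
        by_cases hk : k = n
        · subst hk; rfl
        · rw [if_neg hk, mul_zero, mul_zero]
      rw [e1, map_smul, V.symm_apply_apply]
  rw [hDΔ] at hTD
  have hall := sw_eq cd Δ hΔadj hTD
  refine ⟨μ', (V.toContinuousLinearEquiv : H0 →L[ℂ] ZP (fun _ => 1) 2) ∘L q,
    i ∘L (V.toContinuousLinearEquiv.symm : ZP (fun _ => 1) 2 →L[ℂ] H0), ?_, ?_, ?_⟩
  · refine ContinuousLinearMap.ext fun x => ?_
    change V (q (i (V.symm x))) = x
    rw [cd.qi', V.apply_symm_apply]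
  · refine ContinuousLinearMap.ext fun x => ?_
    change i (V.symm (V (q x))) = e x
    rw [V.symm_apply_apply, cd.iq']
  · intro a
    have h1 := (comm_q cd a).comp_left
      (V.toContinuousLinearEquiv : H0 →L[ℂ] ZP (fun _ => 1) 2)
    have h2 := ((hall a).comp_right q).comp_left
      (V.toContinuousLinearEquiv : H0 →L[ℂ] ZP (fun _ => 1) 2)
    have h3 := h1.trans h2
    refine h3.trans (EqK.of_eq ?_)
    refine ContinuousLinearMap.ext fun x => ?_
    change V (Δ.hom a (q x)) = δ.hom a (V (q x))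
    rw [hΔa, V.apply_symm_apply]

end Pool.Agent.H20.BDFP
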