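import Mathlib
import Pool.Agent.H33.BDFP.Stmts

attribute [local instance] Pool.Agent.H33.BDFP.NV.instNACG Pool.Agent.H33.BDFP.NV.instModule
  Pool.Agent.H33.BDFP.NV.instNormedSpace Pool.Agent.H33.BDFP.NV.instFD
  Pool.Agent.H33.BDFP.NV.instComplete

set_option autoImplicit false

open scoped ENNReal

noncomputable section

namespace Pool.Agent.H20.BDFP

open Finset Pool.Agent.H33.BDFP

lemma lpn_nonneg (p : ℝ≥0∞) {L : ℕ} (y : Fin L → ℂ) : 0 ≤ lpn p y :=
  Real.rpow_nonneg (sum_nonneg fun _ _ => by positivity) _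

lemma lpn_rpow {p : ℝ≥0∞} (hp : 0 < p.toReal) {L : ℕ} (y : Fin L → ℂ) :
    lpn p y ^ p.toReal = ∑ l, ‖y l‖ ^ p.toReal := by
  unfold lpn
  rw [← Real.rpow_mul (sum_nonneg fun _ _ => by positivity), one_div_mul_cancel hp.ne',
    Real.rpow_one]

/-- Module PSUM. -/
theorem psum : PSumStmt := by
  intro p _ hp ι _ E _ _ K h
  have hp0 : 0 < p.toReal := ENNReal.toReal_pos
    (zero_lt_one.trans_le (Fact.out : (1 : ℝ≥0∞) ≤ p)).ne' hp
  choose L a q h1 h2 h3 using h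
  set P := p.toReal with hP
  set C := max K 0 with hC
  have hC0 : 0 ≤ C := le_max_right _ _
  have h2' : ∀ i (x : E i), ∑ l, ‖a i x l‖ ^ P ≤ C ^ P * ‖x‖ ^ P := by
    intro i x
    rw [← lpn_rpow hp0, ← Real.mul_rpow hC0 (norm_nonneg _)]
    refine Real.rpow_le_rpow (lpn_nonneg _ _) ((h2 i x).trans ?_) hp0.le
    exact mul_le_mul_of_nonneg_right (le_max_left _ _) (norm_nonneg _)
  have h3' : ∀ i (y : Fin (L i) → ℂ), ‖q i y‖ ^ P ≤ C ^ P * ∑ l, ‖y l‖ ^ P := by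
    intro i y
    rw [← lpn_rpow hp0, ← Real.mul_rpow hC0 (lpn_nonneg _ _)]
    refine Real.rpow_le_rpow (norm_nonneg _) ((h3 i y).trans ?_) hp0.le
    exact mul_le_mul_of_nonneg_right (le_max_left _ _) (lpn_nonneg _ _)
  obtain ⟨φ, hφ⟩ := Countable.exists_injective_nat (Σ i : ι, Fin (L i))
  classical
  -- the embedding
  set f : lp E p → ℕ → ℂ := fun x =>
    Function.extend φ (fun σ : Σ i : ι, Fin (L i) => a σ.1 (x σ.1) σ.2) 0 with hf
  have hfφ : ∀ x σ, f x (φ σ) = a σ.1 (x σ.1) σ.2 := fun x σ => hφ.extend_apply _ _ _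
  have hf0 : ∀ x n, (¬ ∃ σ, φ σ = n) → f x n = 0 := fun x n hn => by
    rw [hf]
    exact Function.extend_apply' _ _ _ hn
  have hfsum : ∀ (x : lp E p) (S : Finset ℕ), ∑ n ∈ S, ‖f x n‖ ^ P ≤ (C * ‖x‖) ^ P := by
    intro x S
    set S' := S.preimage φ hφ.injOn with hS'
    have e1 : ∑ n ∈ S, ‖f x n‖ ^ P = ∑ σ ∈ S', ‖f x (φ σ)‖ ^ P := by
      symm
      rw [hS']
      refine sum_preimage φ S hφ.injOn (fun n => ‖f x n‖ ^ P) ?_
      intro n _ hn
      rw [hf0 x n (fun ⟨σ, hσ⟩ => hn ⟨σ, hσ⟩), norm_zero, Real.zero_rpow hp0.ne']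
    have e2 : S' ⊆ (S'.image Sigma.fst).sigma (fun _ => univ) := by
      intro σ hσ
      rw [mem_sigma]
      exact ⟨mem_image_of_mem _ hσ, mem_univ _⟩
    calc ∑ n ∈ S, ‖f x n‖ ^ P = ∑ σ ∈ S', ‖f x (φ σ)‖ ^ P := e1
      _ ≤ ∑ σ ∈ (S'.image Sigma.fst).sigma (fun _ => univ), ‖f x (φ σ)‖ ^ P :=
        sum_le_sum_of_subset_of_nonneg e2 fun _ _ _ => by positivity
      _ = ∑ i ∈ S'.image Sigma.fst, ∑ l, ‖a i (x i) l‖ ^ P := by
        rw [sum_sigma]
        refine sum_congr rfl fun i _ => sum_congr rfl fun l _ => ?_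
        rw [hfφ]
      _ ≤ ∑ i ∈ S'.image Sigma.fst, C ^ P * ‖x i‖ ^ P := sum_le_sum fun i _ => h2' i _
      _ = C ^ P * ∑ i ∈ S'.image Sigma.fst, ‖x i‖ ^ P := by rw [mul_sum]
      _ ≤ C ^ P * ‖x‖ ^ P := mul_le_mul_of_nonneg_left (lp.sum_rpow_le_norm_rpow hp0 x _)
        (by positivity)
      _ = (C * ‖x‖) ^ P := (Real.mul_rpow hC0 (norm_nonneg _)).symm
  have hfmem : ∀ x : lp E p, Memℓp (f x) p := fun x => memℓp_gen' (hfsum x)
  have hfadd : ∀ x y n, f (x + y) n = f x n + f y n := by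
    intro x y n
    by_cases hn : ∃ σ, φ σ = n
    · obtain ⟨σ, rfl⟩ := hn
      rw [hfφ, hfφ, hfφ, lp.coeFn_add, Pi.add_apply, map_add, Pi.add_apply]
    · rw [hf0 _ n hn, hf0 _ n hn, hf0 _ n hn, add_zero]
  have hfsmul : ∀ (c : ℂ) x n, f (c • x) n = c * f x n := by
    intro c x n
    by_cases hn : ∃ σ, φ σ = n
    · obtain ⟨σ, rfl⟩ := hn
      rw [hfφ, hfφ, lp.coeFn_smul, Pi.smul_apply, map_smul, Pi.smul_apply, smul_eq_mul]
    · rw [hf0 _ n hn, hf0 _ n hn, mul_zero]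
  set A : lp E p →ₗ[ℂ] LP p :=
    { toFun := fun x => ⟨f x, hfmem x⟩
      map_add' := fun x y => lp.ext (funext fun n => hfadd x y n)
      map_smul' := fun c x => lp.ext (funext fun n => hfsmul c x n) } with hA
  have hAn : ∀ x, ‖A x‖ ≤ C * ‖x‖ := fun x =>
    lp.norm_le_of_forall_sum_le hp0 (mul_nonneg hC0 (norm_nonneg _)) (hfsum x)
  -- the projection
  set g : LP p → ∀ i, E i := fun y i => q i (fun l => y (φ ⟨i, l⟩)) with hg
  have hgsum : ∀ (y : LP p) (S : Finset ι), ∑ i ∈ S, ‖g y i‖ ^ P ≤ (C * ‖y‖) ^ P := by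
    intro y S
    calc ∑ i ∈ S, ‖g y i‖ ^ P ≤ ∑ i ∈ S, C ^ P * ∑ l, ‖y (φ ⟨i, l⟩)‖ ^ P :=
        sum_le_sum fun i _ => h3' i _
      _ = C ^ P * ∑ σ ∈ S.sigma (fun _ => univ), ‖y (φ σ)‖ ^ P := by
        rw [sum_sigma, mul_sum]
      _ = C ^ P * ∑ n ∈ (S.sigma (fun _ => univ)).image φ, ‖y n‖ ^ P := by
        rw [sum_image hφ.injOn]
      _ ≤ C ^ P * ‖y‖ ^ P := mul_le_mul_of_nonneg_left (lp.sum_rpow_le_norm_rpow hp0 y _)
        (by positivity)
      _ = (C * ‖y‖) ^ P := (Real.mul_rpow hC0 (norm_nonneg _)).symm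
  have hgmem : ∀ y : LP p, Memℓp (g y) p := fun y => memℓp_gen' (hgsum y)
  set B : LP p →ₗ[ℂ] lp E p :=
    { toFun := fun y => ⟨g y, hgmem y⟩
      map_add' := fun x y => lp.ext (funext fun i => by
        change q i (fun l => (x + y) (φ ⟨i, l⟩)) = q i _ + q i _
        rw [← map_add]
        rfl)
      map_smul' := fun c x => lp.ext (funext fun i => by
        change q i (fun l => (c • x) (φ ⟨i, l⟩)) = c • q i _
        rw [← map_smul]
        rfl) } with hB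
  have hBn : ∀ y, ‖B y‖ ≤ C * ‖y‖ := fun y =>
    lp.norm_le_of_forall_sum_le hp0 (mul_nonneg hC0 (norm_nonneg _)) (hgsum y)
  refine ⟨A.mkContinuous C hAn, B.mkContinuous C hBn, ?_⟩
  refine ContinuousLinearMap.ext fun x => lp.ext (funext fun i => ?_)
  change q i (fun l => f x (φ ⟨i, l⟩)) = x i
  simp only [hfφ]
  exact h1 i (x i)

/-- Module APC. -/
theorem apc (hR : RosStmt) (hS : PSumStmt) : APcStmt := by
  intro p _ hp hp' r N s hs
  obtain ⟨K, hK⟩ := hR p hp hp'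
  constructor
  · refine hS p hp' (ℕ × ℕ)
      (fun q => NV (BV r N q.2) (lev p r N s hs (some (q.1 + 1)) q.2)) K ?_
    rintro ⟨k, j⟩
    obtain ⟨L, a, b, h1, h2, h3⟩ := hK _ (fun i : Fin (N (j + 1) - N j) => r (N j + i))
      (fun i => s (N j + i)) (fun _ => hs _) ((1 / 2) ^ (k + 1)) (by positivity)
    have hn : ∀ x : BV r N j, (lev p r N s hs (some (k + 1)) j).s x =
        rosNorm p (fun i : Fin (N (j + 1) - N j) => s (N j + i)) ((1 / 2) ^ (k + 1)) x := by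
      intro x
      have h4 := lvl_s p hp' (fun i : Fin (N (j + 1) - N j) => s (N j + i)) (fun _ => hs _)
        ((1 / 2) ^ (k + 1)) x
      push_cast at h4
      exact h4
    refine ⟨L, a ∘ₗ (NV.of (lev p r N s hs (some (k + 1)) j)).symm.toLinearMap,
      (NV.of (lev p r N s hs (some (k + 1)) j)).toLinearMap ∘ₗ b, ?_, ?_, ?_⟩
    · intro x
      exact h1 _
    · intro x
      refine (h2 _).trans (le_of_eq ?_)
      congr 1
      exact (hn _).symm
    · intro y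
      refine le_trans (le_of_eq ?_) (h3 y)
      exact hn _
  · refine hS p hp' ℕ (fun j => NV (BV r N j) (lev p r N s hs none j)) K ?_
    intro j
    obtain ⟨L, a, b, h1, h2, h3⟩ := hK _ (fun i : Fin (N (j + 1) - N j) => r (N j + i))
      (fun i => s (N j + i)) (fun _ => hs _) 0 le_rfl
    have hn : ∀ x : BV r N j, (lev p r N s hs none j).s x =
        rosNorm p (fun i : Fin (N (j + 1) - N j) => s (N j + i)) 0 x := by
      intro x
      have h4 := lvl_s p hp' (fun i : Fin (N (j + 1) - N j) => s (N j + i)) (fun _ => hs _)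
        0 x
      exact h4
    refine ⟨L, a ∘ₗ (NV.of (lev p r N s hs none j)).symm.toLinearMap,
      (NV.of (lev p r N s hs none j)).toLinearMap ∘ₗ b, ?_, ?_, ?_⟩
    · intro x
      exact h1 _
    · intro x
      refine (h2 _).trans (le_of_eq ?_)
      congr 1
      exact (hn _).symm
    · intro y
      refine le_trans (le_of_eq ?_) (h3 y)
      exact hn _

end Pool.Agent.H20.BDFP
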