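import Mathlib

set_option autoImplicit false

noncomputable section

namespace Pool.Agent.H20.BDFP

open Finset

/-! ### real inequalities -/

lemma sum_rpow_le_rpow_sum {ι : Type*} (s : Finset ι) (z : ι → ℝ) (hz : ∀ i ∈ s, 0 ≤ z i)
    {q : ℝ} (hq : 1 ≤ q) : ∑ i ∈ s, z i ^ q ≤ (∑ i ∈ s, z i) ^ q := by
  classical
  induction s using Finset.induction_on with
  | empty => simp; exact Real.rpow_nonneg le_rfl _
  | insert a s ha ih =>
    rw [sum_insert ha, sum_insert ha]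
    have h1 := ih fun i hi => hz i (mem_insert_of_mem hi)
    have h2 := Real.add_rpow_le_rpow_add (hz a (mem_insert_self _ _))
      (sum_nonneg fun i hi => hz i (mem_insert_of_mem hi)) hq
    linarith

lemma rpow_sum_le_sum_rpow {ι : Type*} (s : Finset ι) (z : ι → ℝ) (hz : ∀ i ∈ s, 0 ≤ z i)
    {q : ℝ} (hq0 : 0 < q) (hq : q ≤ 1) : (∑ i ∈ s, z i) ^ q ≤ ∑ i ∈ s, z i ^ q := by
  classical
  induction s using Finset.induction_on with
  | empty => simp [Real.zero_rpow hq0.ne']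
  | insert a s ha ih =>
    rw [sum_insert ha, sum_insert ha]
    have h1 := ih fun i hi => hz i (mem_insert_of_mem hi)
    have h2 := Real.rpow_add_le_add_rpow (hz a (mem_insert_self _ _))
      (sum_nonneg fun i hi => hz i (mem_insert_of_mem hi)) hq0.le hq
    linarith

lemma add_rpow_le_two {a b r : ℝ} (ha : 0 ≤ a) (hb : 0 ≤ b) (hr : 0 ≤ r) :
    (a + b) ^ r ≤ 2 ^ r * (a ^ r + b ^ r) := by
  have h1 : (a + b) ^ r ≤ (2 * max a b) ^ r := by
    apply Real.rpow_le_rpow (by positivity) _ hr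
    have := le_max_left a b
    have := le_max_right a b
    linarith
  rw [Real.mul_rpow (by norm_num) (le_max_of_le_left ha)] at h1
  refine h1.trans (mul_le_mul_of_nonneg_left ?_ (by positivity))
  rcases max_choice a b with h | h <;> rw [h]
  · have := Real.rpow_nonneg hb r; linarith
  · have := Real.rpow_nonneg ha r; linarith

/-! ### product weights on the Boolean cube -/

variable {m : ℕ}

/-- product weights -/
def wt (δ : Fin m → ℝ) (ξ : Fin m → Bool) : ℝ := ∏ n, (if ξ n then δ n else 1 - δ n)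

lemma wt_nonneg {δ : Fin m → ℝ} (h0 : ∀ n, 0 ≤ δ n) (h1 : ∀ n, δ n ≤ 1) (ξ : Fin m → Bool) :
    0 ≤ wt δ ξ := by
  refine prod_nonneg fun n _ => ?_
  split_ifs
  · exact h0 n
  · linarith [h1 n]

lemma wt_sum (δ : Fin m → ℝ) : ∑ ξ, wt δ ξ = 1 := by
  have h := Finset.prod_univ_sum (fun _ : Fin m => (univ : Finset Bool))
    (fun n b => if b then δ n else 1 - δ n)
  rw [Fintype.piFinset_univ] at h
  unfold wt
  rw [← h]
  refine prod_eq_one fun n _ => ?_
  simp

/-- flip one coordinate -/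
def flipE (n : Fin m) : (Fin m → Bool) ≃ (Fin m → Bool) :=
  Function.Involutive.toPerm (fun ξ => Function.update ξ n (!ξ n)) (by
    intro ξ
    simp)

lemma flipE_apply (n : Fin m) (ξ : Fin m → Bool) : flipE n ξ = Function.update ξ n (!ξ n) := rfl

lemma wt_indep (δ : Fin m → ℝ) (n : Fin m) (h : (Fin m → Bool) → ℝ)
    (hh : ∀ ξ, h (flipE n ξ) = h ξ) :
    ∑ ξ, wt δ ξ * ((if ξ n then 1 else 0) * h ξ) = δ n * ∑ ξ, wt δ ξ * h ξ := by
  have key : ∑ ξ, wt δ ξ * (((if ξ n then 1 else 0) - δ n) * h ξ) = 0 := by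
    have h1 := Equiv.sum_comp (flipE n)
      (fun ξ => wt δ ξ * (((if ξ n then 1 else 0) - δ n) * h ξ))
    have h2 : ∀ ξ : Fin m → Bool, wt δ (flipE n ξ) *
        (((if flipE n ξ n then 1 else 0) - δ n) * h (flipE n ξ)) =
        - (wt δ ξ * (((if ξ n then 1 else 0) - δ n) * h ξ)) := by
      intro ξ
      rw [hh]
      unfold wt
      rw [← mul_prod_erase univ _ (mem_univ n),
        ← mul_prod_erase univ (fun k => if ξ k then δ k else 1 - δ k) (mem_univ n)]
      have h3 : ∏ k ∈ univ.erase n, (if flipE n ξ k then δ k else 1 - δ k) =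
          ∏ k ∈ univ.erase n, (if ξ k then δ k else 1 - δ k) := by
        refine prod_congr rfl fun k hk => ?_
        rw [flipE_apply, Function.update_of_ne (ne_of_mem_erase hk)]
      rw [h3, flipE_apply, Function.update_self]
      cases ξ n <;> simp <;> ring
    simp only [h2] at h1
    rw [sum_neg_distrib] at h1
    linarith
  have h4 : ∀ ξ : Fin m → Bool, wt δ ξ * (((if ξ n then 1 else 0) - δ n) * h ξ) =
      wt δ ξ * ((if ξ n then 1 else 0) * h ξ) - δ n * (wt δ ξ * h ξ) := by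
    intro ξ; ring
  simp only [h4] at key
  rw [sum_sub_distrib, ← mul_sum] at key
  linarith

/-- the random sum -/
def bS (y : Fin m → ℝ) (ξ : Fin m → Bool) : ℝ := ∑ n, if ξ n then y n else 0

lemma bS_nonneg {y : Fin m → ℝ} (hy : ∀ n, 0 ≤ y n) (ξ : Fin m → Bool) : 0 ≤ bS y ξ := by
  refine sum_nonneg fun n _ => ?_
  split_ifs
  · exact hy n
  · exact le_rfl

lemma ros_aux {δ : Fin m → ℝ} (h0 : ∀ n, 0 ≤ δ n) (h1 : ∀ n, δ n ≤ 1) {y : Fin m → ℝ}
    (hy : ∀ n, 0 ≤ y n) {q : ℝ} (hq : 1 < q) :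
    ∑ ξ, wt δ ξ * bS y ξ ^ q ≤ 2 ^ (q - 1) * (∑ n, δ n * y n ^ q +
      (∑ n, δ n * y n) * (∑ ξ, wt δ ξ * bS y ξ ^ q) ^ ((q - 1) / q)) := by
  have hq1 : 0 < q - 1 := by linarith
  have hA : ∑ ξ, wt δ ξ * bS y ξ ^ q =
      ∑ n, ∑ ξ, wt δ ξ * ((if ξ n then 1 else 0) * (y n * bS y ξ ^ (q - 1))) := by
    rw [sum_comm]
    refine sum_congr rfl fun ξ _ => ?_
    have h2 : bS y ξ ^ q = bS y ξ * bS y ξ ^ (q - 1) := by
      have := Real.rpow_one_add' (bS_nonneg hy ξ) (y := q - 1) (by linarith)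
      rw [← this]
      congr 1
      ring
    have h3 : ∀ Z : ℝ, bS y ξ * Z = ∑ n, (if ξ n then y n else 0) * Z := by
      intro Z
      rw [bS, sum_mul]
    rw [h2, h3, mul_sum]
    refine sum_congr rfl fun n _ => ?_
    split_ifs <;> ring
  have hJ : ∑ ξ, wt δ ξ * bS y ξ ^ (q - 1) ≤ (∑ ξ, wt δ ξ * bS y ξ ^ q) ^ ((q - 1) / q) := by
    have h2 := Real.rpow_arith_mean_le_arith_mean_rpow univ (fun ξ => wt δ ξ)
      (fun ξ => bS y ξ ^ (q - 1)) (fun ξ _ => wt_nonneg h0 h1 ξ) (wt_sum δ)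
      (fun ξ _ => Real.rpow_nonneg (bS_nonneg hy ξ) _) (p := q / (q - 1))
      (by rw [le_div_iff₀ hq1]; linarith)
    have h3 : ∀ ξ, (bS y ξ ^ (q - 1)) ^ (q / (q - 1)) = bS y ξ ^ q := by
      intro ξ
      rw [← Real.rpow_mul (bS_nonneg hy ξ)]
      congr 1
      field_simp
    simp only [h3] at h2
    have h4 : 0 ≤ ∑ ξ, wt δ ξ * bS y ξ ^ (q - 1) :=
      sum_nonneg fun ξ _ => mul_nonneg (wt_nonneg h0 h1 ξ) (Real.rpow_nonneg (bS_nonneg hy ξ) _)
    have h5 := Real.rpow_le_rpow (Real.rpow_nonneg h4 _) h2 (z := (q - 1) / q) (by positivity)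
    rw [← Real.rpow_mul h4] at h5
    have h6 : q / (q - 1) * ((q - 1) / q) = 1 := by
      field_simp
    rw [h6, Real.rpow_one] at h5
    exact h5
  have hn : ∀ n, ∑ ξ, wt δ ξ * ((if ξ n then 1 else 0) * (y n * bS y ξ ^ (q - 1))) ≤
      2 ^ (q - 1) * (δ n * y n ^ q + δ n * y n * (∑ ξ, wt δ ξ * bS y ξ ^ q) ^ ((q - 1) / q)) := by
    intro n
    set y' : Fin m → ℝ := Function.update y n 0 with hy'
    have hy'0 : ∀ k, 0 ≤ y' k := by
      intro k
      by_cases hk : k = n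
      · subst hk; simp [hy']
      · rw [hy', Function.update_of_ne hk]; exact hy k
    have hsplit : ∀ ξ : Fin m → Bool, bS y ξ = (if ξ n then y n else 0) + bS y' ξ := by
      intro ξ
      unfold bS
      rw [← add_sum_erase univ _ (mem_univ n),
        ← add_sum_erase univ (fun k => if ξ k then y' k else 0) (mem_univ n)]
      have h2 : (if ξ n then y' n else 0) = 0 := by simp [hy']
      rw [h2, zero_add]
      congr 1
      refine sum_congr rfl fun k hk => ?_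
      rw [hy', Function.update_of_ne (ne_of_mem_erase hk)]
    have hinv : ∀ ξ, bS y' (flipE n ξ) = bS y' ξ := by
      intro ξ
      unfold bS
      refine sum_congr rfl fun k _ => ?_
      by_cases hk : k = n
      · subst hk; simp [hy']
      · rw [flipE_apply, Function.update_of_ne hk]
    have hle : ∀ ξ, bS y' ξ ≤ bS y ξ := by
      intro ξ
      rw [hsplit ξ]
      have : 0 ≤ (if ξ n then y n else 0) := by
        split_ifs
        · exact hy n
        · exact le_rfl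
      linarith
    have h2 : ∀ ξ, wt δ ξ * ((if ξ n then 1 else 0) * (y n * bS y ξ ^ (q - 1))) ≤
        wt δ ξ * ((if ξ n then 1 else 0) *
          (2 ^ (q - 1) * (y n ^ q + y n * bS y' ξ ^ (q - 1)))) := by
      intro ξ
      refine mul_le_mul_of_nonneg_left ?_ (wt_nonneg h0 h1 ξ)
      by_cases hξ : ξ n
      · rw [if_pos hξ, one_mul, one_mul, hsplit ξ, if_pos hξ]
        have h3 := add_rpow_le_two (hy n) (bS_nonneg hy'0 ξ) hq1.le
        have h4 : y n ^ q = y n * y n ^ (q - 1) := by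
          have := Real.rpow_one_add' (hy n) (y := q - 1) (by linarith)
          rw [← this]
          congr 1
          ring
        rw [h4]
        calc y n * (y n + bS y' ξ) ^ (q - 1)
            ≤ y n * (2 ^ (q - 1) * (y n ^ (q - 1) + bS y' ξ ^ (q - 1))) :=
              mul_le_mul_of_nonneg_left h3 (hy n)
          _ = 2 ^ (q - 1) * (y n * y n ^ (q - 1) + y n * bS y' ξ ^ (q - 1)) := by ring
      · rw [if_neg hξ]; simp
    refine (sum_le_sum fun ξ _ => h2 ξ).trans ?_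
    rw [wt_indep δ n (fun ξ => 2 ^ (q - 1) * (y n ^ q + y n * bS y' ξ ^ (q - 1)))
      (fun ξ => by simp only [hinv])]
    have h5 : ∑ ξ, wt δ ξ * (2 ^ (q - 1) * (y n ^ q + y n * bS y' ξ ^ (q - 1))) =
        2 ^ (q - 1) * (y n ^ q + y n * ∑ ξ, wt δ ξ * bS y' ξ ^ (q - 1)) := by
      have h6 : ∀ ξ : Fin m → Bool, wt δ ξ * (2 ^ (q - 1) * (y n ^ q + y n * bS y' ξ ^ (q - 1))) =
          2 ^ (q - 1) * y n ^ q * wt δ ξ + 2 ^ (q - 1) * y n * (wt δ ξ * bS y' ξ ^ (q - 1)) := by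
        intro ξ; ring
      simp only [h6]
      rw [sum_add_distrib, ← mul_sum, ← mul_sum, wt_sum]
      ring
    rw [h5]
    have h7 : ∑ ξ, wt δ ξ * bS y' ξ ^ (q - 1) ≤ ∑ ξ, wt δ ξ * bS y ξ ^ (q - 1) :=
      sum_le_sum fun ξ _ => mul_le_mul_of_nonneg_left
        (Real.rpow_le_rpow (bS_nonneg hy'0 ξ) (hle ξ) hq1.le) (wt_nonneg h0 h1 ξ)
    have h8 := h7.trans hJ
    calc δ n * (2 ^ (q - 1) * (y n ^ q + y n * ∑ ξ, wt δ ξ * bS y' ξ ^ (q - 1)))
        = 2 ^ (q - 1) * (δ n * y n ^ q + δ n * y n * ∑ ξ, wt δ ξ * bS y' ξ ^ (q - 1)) := by ring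
      _ ≤ _ := by
        refine mul_le_mul_of_nonneg_left ?_ (by positivity)
        have := mul_le_mul_of_nonneg_left h8 (mul_nonneg (h0 n) (hy n))
        linarith
  calc ∑ ξ, wt δ ξ * bS y ξ ^ q = _ := hA
    _ ≤ ∑ n, 2 ^ (q - 1) * (δ n * y n ^ q +
        δ n * y n * (∑ ξ, wt δ ξ * bS y ξ ^ q) ^ ((q - 1) / q)) := sum_le_sum fun n _ => hn n
    _ = _ := by
      rw [← mul_sum, sum_add_distrib, ← sum_mul]

/-- Rosenthal's inequality for nonnegative variables -/
lemma ros_nonneg {δ : Fin m → ℝ} (h0 : ∀ n, 0 ≤ δ n) (h1 : ∀ n, δ n ≤ 1) {y : Fin m → ℝ}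
    (hy : ∀ n, 0 ≤ y n) {q : ℝ} (hq : 1 < q) :
    ∑ ξ, wt δ ξ * bS y ξ ^ q ≤
      max (2 ^ q * ∑ n, δ n * y n ^ q) ((2 ^ q * ∑ n, δ n * y n) ^ q) := by
  have h := ros_aux h0 h1 hy hq
  set A := ∑ ξ, wt δ ξ * bS y ξ ^ q with hA
  set b := ∑ n, δ n * y n ^ q with hb
  set μ := ∑ n, δ n * y n with hμ
  have hA0 : 0 ≤ A :=
    sum_nonneg fun ξ _ => mul_nonneg (wt_nonneg h0 h1 ξ) (Real.rpow_nonneg (bS_nonneg hy ξ) _)
  have hμ0 : 0 ≤ μ := sum_nonneg fun n _ => mul_nonneg (h0 n) (hy n)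
  have h2 : (2 : ℝ) ^ q = 2 * 2 ^ (q - 1) := by
    rw [← Real.rpow_one_add' (by norm_num) (by linarith)]
    congr 1; ring
  have hq0 : 0 < q := by linarith
  by_cases hc : μ * A ^ ((q - 1) / q) ≤ b
  · refine le_trans ?_ (le_max_left _ _)
    rw [h2]
    have : (2 : ℝ) ^ (q - 1) * (b + μ * A ^ ((q - 1) / q)) ≤ 2 ^ (q - 1) * (b + b) :=
      mul_le_mul_of_nonneg_left (by linarith) (by positivity)
    linarith
  · push Not at hc
    refine le_trans ?_ (le_max_right _ _)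
    rcases hA0.eq_or_lt with hA1 | hA1
    · rw [← hA1]; exact Real.rpow_nonneg (by positivity) _
    · have h3 : A ≤ 2 ^ q * μ * A ^ ((q - 1) / q) := by
        have : (2 : ℝ) ^ (q - 1) * (b + μ * A ^ ((q - 1) / q)) ≤
            2 ^ (q - 1) * (μ * A ^ ((q - 1) / q) + μ * A ^ ((q - 1) / q)) :=
          mul_le_mul_of_nonneg_left (by linarith) (by positivity)
        rw [h2]
        linarith
      have h4 : A = A ^ (1 / q) * A ^ ((q - 1) / q) := by
        rw [← Real.rpow_add hA1]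
        have : 1 / q + (q - 1) / q = 1 := by field_simp; ring
        rw [this, Real.rpow_one]
      have h5 : A ^ (1 / q) ≤ 2 ^ q * μ := by
        have h6 : 0 < A ^ ((q - 1) / q) := Real.rpow_pos_of_pos hA1 _
        have h7 : A ^ (1 / q) * A ^ ((q - 1) / q) ≤ 2 ^ q * μ * A ^ ((q - 1) / q) := by
          rw [← h4]; exact h3
        exact le_of_mul_le_mul_right h7 h6
      have h8 := Real.rpow_le_rpow (Real.rpow_nonneg hA0 _) h5 hq0.le
      rw [← Real.rpow_mul hA0, one_div_mul_cancel hq0.ne', Real.rpow_one] at h8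
      exact h8

end Pool.Agent.H20.BDFP
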