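import Mathlib
import Pool.Agent.H33.BDFP.Stmts
import Pool.Agent.H20.BDFP.ROS1

attribute [local instance] Pool.Agent.H33.BDFP.NV.instNACG Pool.Agent.H33.BDFP.NV.instModule
  Pool.Agent.H33.BDFP.NV.instNormedSpace Pool.Agent.H33.BDFP.NV.instFD
  Pool.Agent.H33.BDFP.NV.instComplete

set_option autoImplicit false

open scoped ENNReal

noncomputable section

namespace Pool.Agent.H20.BDFP

open Finset Pool.Agent.H33.BDFP

variable {m : ℕ} {r : Fin m → ℕ}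

/-- the index set of the coordinates -/
abbrev JJ (r : Fin m → ℕ) : Type := Σ n : Fin m, Fin (r n)

/-- the sample space -/
abbrev Om (r : Fin m → ℕ) : Type := (Fin m → Bool) × (JJ r → Bool)

/-- the weights -/
def WW (r : Fin m → ℕ) (δ : Fin m → ℝ) (ω : Om r) : ℝ := wt δ ω.1 / 2 ^ Fintype.card (JJ r)

/-- the random variables -/
def XX (t : Fin m → ℝ) (j : JJ r) (ω : Om r) : ℂ :=
  (if ω.1 j.1 then (t j.1 : ℂ) else 0) * sgn (ω.2 j)

lemma WW_nonneg {δ : Fin m → ℝ} (h0 : ∀ n, 0 ≤ δ n) (h1 : ∀ n, δ n ≤ 1) (ω : Om r) :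
    0 ≤ WW r δ ω := div_nonneg (wt_nonneg h0 h1 _) (by positivity)

lemma sum_WW (δ : Fin m → ℝ) (F : Om r → ℝ) :
    ∑ ω, WW r δ ω * F ω = ∑ ξ, wt δ ξ * signAvg (fun ε => F (ξ, ε)) := by
  rw [Fintype.sum_prod_type]
  refine sum_congr rfl fun ξ _ => ?_
  unfold WW signAvg
  rw [mul_div_assoc', mul_sum, sum_div]
  refine sum_congr rfl fun ε _ => ?_
  ring

lemma sum_WW_one (δ : Fin m → ℝ) : ∑ ω, WW r δ ω = 1 := by
  have h := sum_WW (r := r) δ (fun _ => 1)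
  simp only [mul_one] at h
  rw [h]
  have h2 : signAvg (fun _ : JJ r → Bool => (1 : ℝ)) = 1 := by
    unfold signAvg
    rw [sum_const, card_univ, Fintype.card_fun, Fintype.card_bool, nsmul_eq_mul, mul_one]
    push_cast
    exact div_self (by positivity)
  simp only [h2, mul_one]
  exact wt_sum δ

lemma sgn_mul_self (b : Bool) : sgn b * sgn b = 1 := by
  cases b <;> simp [sgn]

lemma sgn_not (b : Bool) : sgn (!b) = - sgn b := by
  cases b <;> simp [sgn]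

lemma sum_sgn_sgn {ι : Type} [Fintype ι] [DecidableEq ι] (i j : ι) :
    ∑ ε : ι → Bool, sgn (ε i) * sgn (ε j) = if i = j then (2 : ℂ) ^ Fintype.card ι else 0 := by
  split_ifs with h
  · subst h
    simp only [sgn_mul_self]
    rw [sum_const, card_univ, Fintype.card_fun, Fintype.card_bool, nsmul_eq_mul, mul_one]
    push_cast
    rfl
  · have hinv : Function.Involutive (fun ε : ι → Bool => Function.update ε i (!ε i)) := by
      intro ε; simp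
    have h1 := Equiv.sum_comp hinv.toPerm (fun ε : ι → Bool => sgn (ε i) * sgn (ε j))
    have h2 : ∀ ε : ι → Bool, sgn (hinv.toPerm _ ε i) * sgn (hinv.toPerm _ ε j) =
        - (sgn (ε i) * sgn (ε j)) := by
      intro ε
      change sgn (Function.update ε i (!ε i) i) * sgn (Function.update ε i (!ε i) j) = _
      rw [Function.update_self, Function.update_of_ne (Ne.symm h), sgn_not]
      ring
    simp only [h2] at h1
    rw [sum_neg_distrib] at h1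
    have h3 : (2 : ℂ) * ∑ ε : ι → Bool, sgn (ε i) * sgn (ε j) = 0 := by
      linear_combination -h1
    simpa using h3

lemma ortho {δ t s : Fin m → ℝ} (hts : ∀ n, δ n * t n ^ 2 = s n ^ 2) (i j : JJ r) :
    ∑ ω, (WW r δ ω : ℂ) * (XX t i ω * XX t j ω) = if i = j then ((s i.1 : ℂ)) ^ 2 else 0 := by
  rw [Fintype.sum_prod_type]
  have h1 : ∀ ξ : Fin m → Bool, ∑ ε : JJ r → Bool, (WW r δ (ξ, ε) : ℂ) *
      (XX t i (ξ, ε) * XX t j (ξ, ε)) =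
      (wt δ ξ : ℂ) * ((if ξ i.1 then (t i.1 : ℂ) else 0) * (if ξ j.1 then (t j.1 : ℂ) else 0)) *
        (if i = j then 1 else 0) := by
    intro ξ
    have h2 : ∀ ε : JJ r → Bool, (WW r δ (ξ, ε) : ℂ) * (XX t i (ξ, ε) * XX t j (ξ, ε)) =
        (wt δ ξ : ℂ) / 2 ^ Fintype.card (JJ r) *
        ((if ξ i.1 then (t i.1 : ℂ) else 0) * (if ξ j.1 then (t j.1 : ℂ) else 0)) *
        (sgn (ε i) * sgn (ε j)) := by
      intro ε
      simp only [WW, XX]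
      push_cast
      ring
    simp only [h2]
    rw [← mul_sum, sum_sgn_sgn]
    have h3 : (2 : ℂ) ^ Fintype.card (JJ r) ≠ 0 := pow_ne_zero _ two_ne_zero
    by_cases hij : i = j
    · rw [if_pos hij, if_pos hij]
      field_simp
    · rw [if_neg hij, if_neg hij, mul_zero, mul_zero]
  simp only [h1]
  by_cases hij : i = j
  · subst hij
    simp only [if_true, mul_one]
    have h4 := wt_indep δ i.1 (fun _ => t i.1 ^ 2) (fun _ => rfl)
    have h5 : ∑ ξ, wt δ ξ * ((if ξ i.1 then 1 else 0) * t i.1 ^ 2) = s i.1 ^ 2 := by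
      rw [h4, ← sum_mul, wt_sum, one_mul, hts]
    have h6 : ((∑ ξ, wt δ ξ * ((if ξ i.1 then 1 else 0) * t i.1 ^ 2) : ℝ) : ℂ) =
        ((s i.1 ^ 2 : ℝ) : ℂ) := by rw [h5]
    push_cast at h6
    rw [← h6]
    refine sum_congr rfl fun ξ _ => ?_
    split_ifs
    · rw [Complex.ofReal_one]; ring
    · rw [Complex.ofReal_zero]; ring
  · simp [hij]

/-! ### the square functions -/

lemma sum_sq_eq (t : Fin m → ℝ) (c : JJ r → ℂ) (ξ : Fin m → Bool) :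
    ∑ j, ‖c j * (if ξ j.1 then (t j.1 : ℂ) else 0)‖ ^ 2 =
      bS (fun n => t n ^ 2 * ∑ i, ‖c ⟨n, i⟩‖ ^ 2) ξ := by
  rw [Fintype.sum_sigma]
  unfold bS
  refine sum_congr rfl fun n _ => ?_
  by_cases h : ξ n
  · simp only [h, if_true, norm_mul, Complex.norm_real, Real.norm_eq_abs, mul_pow, sq_abs]
    rw [← sum_mul, mul_comm]
  · simp [h]

lemma sum_X_eq (t : Fin m → ℝ) (c : JJ r → ℂ) (ξ : Fin m → Bool) (ε : JJ r → Bool) :
    ∑ j, c j * XX t j (ξ, ε) = ∑ j, sgn (ε j) • (c j * (if ξ j.1 then (t j.1 : ℂ) else 0)) := by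
  refine sum_congr rfl fun j _ => ?_
  simp only [XX, smul_eq_mul]
  ring

lemma kh_up (hK : KhStmt) (P : ℝ) (hP : 2 ≤ P) : ∃ B : ℝ, 1 ≤ B ∧
    ∀ (m : ℕ) (r : Fin m → ℕ) (δ t : Fin m → ℝ) (_ : ∀ n, 0 ≤ δ n) (_ : ∀ n, δ n ≤ 1)
      (c : JJ r → ℂ),
      ∑ ω, WW r δ ω * ‖∑ j, c j * XX t j ω‖ ^ P ≤
        B ^ P * ∑ ξ, wt δ ξ * bS (fun n => t n ^ 2 * ∑ i, ‖c ⟨n, i⟩‖ ^ 2) ξ ^ (P / 2) := by
  obtain ⟨B, hB, h⟩ := hK.1 P hP
  refine ⟨B, hB, ?_⟩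
  intro m r δ t h0 h1 c
  rw [sum_WW, mul_sum]
  refine sum_le_sum fun ξ _ => ?_
  have h2 := (h ℂ (JJ r) (fun j => c j * (if ξ j.1 then (t j.1 : ℂ) else 0))).1
  rw [sum_sq_eq] at h2
  simp only [sum_X_eq]
  calc wt δ ξ * _ ≤ wt δ ξ * _ := mul_le_mul_of_nonneg_left h2 (wt_nonneg h0 h1 ξ)
    _ = _ := by ring

lemma kh_low (hK : KhStmt) {Q : ℝ} (hQ1 : 1 ≤ Q) (hQ2 : Q ≤ 2) {δ t : Fin m → ℝ}
    (h0 : ∀ n, 0 ≤ δ n) (h1 : ∀ n, δ n ≤ 1) (c : JJ r → ℂ) :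
      ∑ ω, WW r δ ω * ‖∑ j, c j * XX t j ω‖ ^ Q ≤
        ∑ ξ, wt δ ξ * bS (fun n => t n ^ 2 * ∑ i, ‖c ⟨n, i⟩‖ ^ 2) ξ ^ (Q / 2) := by
  rw [sum_WW]
  refine sum_le_sum fun ξ _ => ?_
  have h2 := hK.2 Q hQ1 hQ2 ℂ (JJ r) (fun j => c j * (if ξ j.1 then (t j.1 : ℂ) else 0))
  rw [sum_sq_eq] at h2
  simp only [sum_X_eq]
  exact mul_le_mul_of_nonneg_left h2 (wt_nonneg h0 h1 ξ)

/-- the `p`-dual estimate. -/
lemma dual_est (hK : KhStmt) {Q : ℝ} (hQ1 : 1 ≤ Q) (hQ2 : Q ≤ 2) {δ t : Fin m → ℝ}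
    (h0 : ∀ n, 0 ≤ δ n) (h1 : ∀ n, δ n ≤ 1) (ht : ∀ n, 0 ≤ t n) (c : JJ r → ℂ) :
      ∑ ω, WW r δ ω * ‖∑ j, c j * XX t j ω‖ ^ Q ≤
        ∑ n, δ n * t n ^ Q * (∑ i, ‖c ⟨n, i⟩‖ ^ 2) ^ (Q / 2) := by
  refine (kh_low hK hQ1 hQ2 h0 h1 c).trans ?_
  have h2 : ∀ ξ : Fin m → Bool, bS (fun n => t n ^ 2 * ∑ i, ‖c ⟨n, i⟩‖ ^ 2) ξ ^ (Q / 2) ≤
      ∑ n, (if ξ n then 1 else 0) * (t n ^ Q * (∑ i, ‖c ⟨n, i⟩‖ ^ 2) ^ (Q / 2)) := by
    intro ξ
    unfold bS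
    refine (rpow_sum_le_sum_rpow univ _ (fun n _ => ?_) (by linarith) (by linarith)).trans ?_
    · split_ifs
      · positivity
      · exact le_rfl
    · refine sum_le_sum fun n _ => ?_
      by_cases hξ : ξ n
      · rw [if_pos hξ, if_pos hξ, one_mul, Real.mul_rpow (by positivity) (by positivity)]
        have : (t n ^ 2) ^ (Q / 2) = t n ^ Q := by
          rw [← Real.rpow_natCast, ← Real.rpow_mul (ht n)]
          congr 1
          push_cast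
          ring
        rw [this]
      · rw [if_neg hξ, if_neg hξ, zero_mul, Real.zero_rpow (by linarith)]
  calc ∑ ξ, wt δ ξ * bS (fun n => t n ^ 2 * ∑ i, ‖c ⟨n, i⟩‖ ^ 2) ξ ^ (Q / 2)
      ≤ ∑ ξ, wt δ ξ * ∑ n, (if ξ n then 1 else 0) *
          (t n ^ Q * (∑ i, ‖c ⟨n, i⟩‖ ^ 2) ^ (Q / 2)) :=
        sum_le_sum fun ξ _ => mul_le_mul_of_nonneg_left (h2 ξ) (wt_nonneg h0 h1 ξ)
    _ = ∑ n, ∑ ξ, wt δ ξ * ((if ξ n then 1 else 0) *
          (t n ^ Q * (∑ i, ‖c ⟨n, i⟩‖ ^ 2) ^ (Q / 2))) := by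
        rw [sum_comm]
        refine sum_congr rfl fun ξ _ => ?_
        rw [mul_sum]
    _ = _ := by
        refine sum_congr rfl fun n _ => ?_
        rw [wt_indep δ n (fun _ => t n ^ Q * (∑ i, ‖c ⟨n, i⟩‖ ^ 2) ^ (Q / 2)) (fun _ => rfl),
          ← sum_mul, wt_sum]
        ring

/-- second moments -/
lemma second_moment {δ t s : Fin m → ℝ} (hts : ∀ n, δ n * t n ^ 2 = s n ^ 2) (c : JJ r → ℂ) :
    ∑ ω, WW r δ ω * ‖∑ j, c j * XX t j ω‖ ^ 2 = ∑ n, s n ^ 2 * ∑ i, ‖c ⟨n, i⟩‖ ^ 2 := by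
  have hconj : ∀ (j : JJ r) (ω : Om r), (starRingEnd ℂ) (XX t j ω) = XX t j ω := by
    intro j ω
    simp only [XX, map_mul]
    congr 1
    · split_ifs <;> simp
    · cases ω.2 j <;> simp [sgn]
  have h1 : ∀ ω : Om r, ((WW r δ ω * ‖∑ j, c j * XX t j ω‖ ^ 2 : ℝ) : ℂ) =
      ∑ i, ∑ j, c i * (starRingEnd ℂ) (c j) * ((WW r δ ω : ℂ) * (XX t i ω * XX t j ω)) := by
    intro ω
    push_cast
    rw [← Complex.mul_conj', map_sum, sum_mul_sum, mul_sum]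
    refine sum_congr rfl fun i _ => ?_
    rw [mul_sum]
    refine sum_congr rfl fun j _ => ?_
    rw [map_mul, hconj]
    ring
  have h2 : ((∑ ω, WW r δ ω * ‖∑ j, c j * XX t j ω‖ ^ 2 : ℝ) : ℂ) =
      ∑ i : JJ r, c i * (starRingEnd ℂ) (c i) * (s i.1 : ℂ) ^ 2 := by
    rw [Complex.ofReal_sum]
    simp only [h1]
    rw [sum_comm]
    refine sum_congr rfl fun i _ => ?_
    rw [sum_comm]
    have h3 : ∀ j : JJ r, ∑ ω : Om r, c i * (starRingEnd ℂ) (c j) *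
        ((WW r δ ω : ℂ) * (XX t i ω * XX t j ω)) =
        c i * (starRingEnd ℂ) (c j) * (if i = j then ((s i.1 : ℂ)) ^ 2 else 0) := by
      intro j
      rw [← mul_sum, ortho hts]
    simp only [h3]
    simp
  have h4 : ((∑ n, s n ^ 2 * ∑ i, ‖c ⟨n, i⟩‖ ^ 2 : ℝ) : ℂ) =
      ∑ i : JJ r, c i * (starRingEnd ℂ) (c i) * (s i.1 : ℂ) ^ 2 := by
    rw [Fintype.sum_sigma]
    push_cast
    refine sum_congr rfl fun n _ => ?_
    rw [mul_sum]
    refine sum_congr rfl fun i _ => ?_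
    rw [Complex.mul_conj']
    ring
  exact_mod_cast h2.trans h4.symm

end Pool.Agent.H20.BDFP
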