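import Mathlib
import Pool.Agent.H33.BDFP.Stmts
import Pool.Agent.H20.BDFP.ROS1
import Pool.Agent.H20.BDFP.ROS2

attribute [local instance] Pool.Agent.H33.BDFP.NV.instNACG Pool.Agent.H33.BDFP.NV.instModule
  Pool.Agent.H33.BDFP.NV.instNormedSpace Pool.Agent.H33.BDFP.NV.instFD
  Pool.Agent.H33.BDFP.NV.instComplete

set_option autoImplicit false

open scoped ENNReal

noncomputable section

namespace Pool.Agent.H20.BDFP

open Finset Pool.Agent.H33.BDFP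

variable {m : ℕ} {r : Fin m → ℕ}

/-- the space of block vectors -/
abbrev VV (r : Fin m → ℕ) : Type := ∀ n, EuclideanSpace ℂ (Fin (r n))

/-- the embedding -/
def aa (P : ℝ) (δ t : Fin m → ℝ) : VV r →ₗ[ℂ] (Om r → ℂ) where
  toFun x := fun ω => (((WW r δ ω) ^ (1 / P) : ℝ) : ℂ) * ∑ j : JJ r, x j.1 j.2 * XX t j ω
  map_add' x y := by
    funext ω
    simp only [Pi.add_apply, PiLp.add_apply]
    rw [← mul_add, ← sum_add_distrib]
    congr 1
    refine sum_congr rfl fun j _ => ?_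
    ring
  map_smul' c x := by
    funext ω
    simp only [Pi.smul_apply, PiLp.smul_apply, smul_eq_mul, RingHom.id_apply]
    rw [mul_left_comm, mul_sum _ _ c]
    congr 1
    refine sum_congr rfl fun j _ => ?_
    ring

/-- the projection -/
def qq (Q : ℝ) (δ t s : Fin m → ℝ) : (Om r → ℂ) →ₗ[ℂ] VV r where
  toFun y := fun n => WithLp.toLp 2 (fun i =>
    ((s n : ℂ) ^ 2)⁻¹ * ∑ ω, (((WW r δ ω) ^ (1 / Q) : ℝ) : ℂ) * y ω * XX t ⟨n, i⟩ ω)
  map_add' x y := by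
    funext n
    refine PiLp.ext fun i => ?_
    simp only [Pi.add_apply, PiLp.add_apply]
    rw [← mul_add, ← sum_add_distrib]
    congr 1
    refine sum_congr rfl fun j _ => ?_
    ring
  map_smul' c x := by
    funext n
    refine PiLp.ext fun i => ?_
    simp only [Pi.smul_apply, PiLp.smul_apply, smul_eq_mul, RingHom.id_apply]
    rw [mul_left_comm c, mul_sum _ _ c]
    congr 1
    refine sum_congr rfl fun j _ => ?_
    ring

lemma qq_apply (Q : ℝ) (δ t s : Fin m → ℝ) (y : Om r → ℂ) (n : Fin m) (i : Fin (r n)) :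
    qq Q δ t s y n i =
    ((s n : ℂ) ^ 2)⁻¹ * ∑ ω, (((WW r δ ω) ^ (1 / Q) : ℝ) : ℂ) * y ω * XX t ⟨n, i⟩ ω := rfl

lemma qa {P Q : ℝ} (hPQ : P.HolderConjugate Q) {δ t s : Fin m → ℝ}
    (h0 : ∀ n, 0 ≤ δ n) (h1 : ∀ n, δ n ≤ 1) (hs : ∀ n, 0 < s n)
    (hts : ∀ n, δ n * t n ^ 2 = s n ^ 2) (x : VV r) : qq Q δ t s (aa P δ t x) = x := by
  funext n
  refine PiLp.ext fun i => ?_
  rw [qq_apply]
  have hW : ∀ ω : Om r, (((WW r δ ω) ^ (1 / Q) : ℝ) : ℂ) * (((WW r δ ω) ^ (1 / P) : ℝ) : ℂ) =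
      (WW r δ ω : ℂ) := by
    intro ω
    rw [← Complex.ofReal_mul, ← Real.rpow_add' (WW_nonneg h0 h1 ω)]
    · have : 1 / Q + 1 / P = 1 := by
        have := hPQ.inv_add_inv_eq_one
        rw [one_div, one_div, add_comm]
        exact this
      rw [this, Real.rpow_one]
    · have := hPQ.inv_add_inv_eq_one
      rw [one_div, one_div, add_comm, this]
      exact one_ne_zero
  have h2 : ∀ ω : Om r, (((WW r δ ω) ^ (1 / Q) : ℝ) : ℂ) * aa P δ t x ω * XX t ⟨n, i⟩ ω =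
      ∑ j : JJ r, x j.1 j.2 * ((WW r δ ω : ℂ) * (XX t j ω * XX t ⟨n, i⟩ ω)) := by
    intro ω
    change (((WW r δ ω) ^ (1 / Q) : ℝ) : ℂ) * ((((WW r δ ω) ^ (1 / P) : ℝ) : ℂ) *
      ∑ j : JJ r, x j.1 j.2 * XX t j ω) * XX t ⟨n, i⟩ ω = _
    rw [← mul_assoc, hW, mul_assoc, sum_mul, mul_sum]
    refine sum_congr rfl fun j _ => ?_
    ring
  simp only [h2]
  rw [sum_comm]
  simp only [← mul_sum, ortho hts]
  rw [sum_eq_single (⟨n, i⟩ : JJ r)]
  · rw [if_pos rfl]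
    have : (s n : ℂ) ≠ 0 := by exact_mod_cast (hs n).ne'
    field_simp
  · intro j _ hj
    rw [if_neg hj, mul_zero]
  · intro h
    exact absurd (mem_univ _) h

/-! ### upper estimate -/

/-- the level norm for `α = 1` -/
def NN (P : ℝ) (s : Fin m → ℝ) (x : VV r) : ℝ :=
  max ((∑ n, ‖x n‖ ^ P) ^ (1 / P)) (Real.sqrt (∑ n, (s n * ‖x n‖) ^ 2))

lemma NN_nonneg (P : ℝ) (s : Fin m → ℝ) (x : VV r) : 0 ≤ NN P s x :=
  le_max_of_le_right (Real.sqrt_nonneg _)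

lemma upper (hK : KhStmt) {P : ℝ} (hP : 2 < P) : ∃ K : ℝ, 1 ≤ K ∧
    ∀ (m : ℕ) (r : Fin m → ℕ) (δ t s : Fin m → ℝ) (_ : ∀ n, 0 ≤ δ n) (_ : ∀ n, δ n ≤ 1)
      (_ : ∀ n, 0 ≤ t n) (_ : ∀ n, 0 < s n) (_ : ∀ n, δ n * t n ^ 2 = s n ^ 2)
      (_ : ∀ n, δ n * t n ^ P ≤ 1 + s n ^ P) (x : VV r),
      (∑ ω, ‖aa P δ t x ω‖ ^ P) ^ (1 / P) ≤ K * NN P s x := by
  obtain ⟨B, hB, hup⟩ := kh_up hK P hP.le
  set q := P / 2 with hq
  have hq1 : 1 < q := by rw [hq]; linarith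
  have hP0 : 0 < P := by linarith
  set D : ℝ := 2 ^ q * 2 + (2 ^ q) ^ q with hD
  have h2q : (1 : ℝ) ≤ 2 ^ q := Real.one_le_rpow (by norm_num) (by linarith)
  have hD1 : 1 ≤ D := by
    have : 0 ≤ ((2 : ℝ) ^ q) ^ q := by positivity
    rw [hD]; linarith
  refine ⟨B * D ^ (1 / P), one_le_mul_of_one_le_of_one_le hB
    (Real.one_le_rpow hD1 (by positivity)), ?_⟩
  intro m r δ t s h0 h1 ht hs hts htp x
  set N := NN P s x with hN
  have hN0 : 0 ≤ N := NN_nonneg P s x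
  -- the norm of `a x`
  have e1 : ∑ ω, ‖aa P δ t x ω‖ ^ P = ∑ ω, WW r δ ω * ‖∑ j : JJ r, x j.1 j.2 * XX t j ω‖ ^ P := by
    refine sum_congr rfl fun ω _ => ?_
    change ‖(((WW r δ ω) ^ (1 / P) : ℝ) : ℂ) * ∑ j : JJ r, x j.1 j.2 * XX t j ω‖ ^ P = _
    have hw := WW_nonneg (r := r) h0 h1 ω
    rw [norm_mul, Complex.norm_real, Real.norm_of_nonneg (Real.rpow_nonneg hw _),
      Real.mul_rpow (Real.rpow_nonneg hw _) (norm_nonneg _), ← Real.rpow_mul hw,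
      one_div_mul_cancel hP0.ne', Real.rpow_one]
  have e2 := hup m r δ t h0 h1 (fun j => x j.1 j.2)
  have e3 : (fun n => t n ^ 2 * ∑ i, ‖x n i‖ ^ 2) = fun n => t n ^ 2 * ‖x n‖ ^ 2 := by
    funext n
    rw [EuclideanSpace.norm_sq_eq]
  simp only at e2
  rw [e3] at e2
  have e4 := ros_nonneg h0 h1 (y := fun n => t n ^ 2 * ‖x n‖ ^ 2) (fun n => by positivity) hq1
  -- the p-part
  have e5 : ∑ n, ‖x n‖ ^ P ≤ N ^ P := by
    have h2 : (∑ n, ‖x n‖ ^ P) ^ (1 / P) ≤ N := le_max_left _ _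
    have h3 : 0 ≤ ∑ n, ‖x n‖ ^ P := sum_nonneg fun n _ => by positivity
    have h4 := Real.rpow_le_rpow (Real.rpow_nonneg h3 _) h2 hP0.le
    rw [← Real.rpow_mul h3, one_div_mul_cancel hP0.ne', Real.rpow_one] at h4
    exact h4
  have e6 : ∑ n, (s n * ‖x n‖) ^ 2 ≤ N ^ 2 := by
    have h2 : Real.sqrt (∑ n, (s n * ‖x n‖) ^ 2) ≤ N := le_max_right _ _
    have h3 : 0 ≤ ∑ n, (s n * ‖x n‖) ^ 2 := sum_nonneg fun n _ => by positivity
    have h4 := pow_le_pow_left₀ (Real.sqrt_nonneg _) h2 2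
    rw [Real.sq_sqrt h3] at h4
    exact h4
  have hNP : (N ^ 2) ^ q = N ^ P := by
    rw [← Real.rpow_natCast, ← Real.rpow_mul hN0]
    congr 1
    rw [hq]; push_cast; ring
  have e7 : ∑ n, (s n * ‖x n‖) ^ P ≤ N ^ P := by
    have h2 := sum_rpow_le_rpow_sum univ (fun n => (s n * ‖x n‖) ^ 2)
      (fun n _ => by positivity) hq1.le
    have h3 : ∀ n, ((s n * ‖x n‖) ^ 2) ^ q = (s n * ‖x n‖) ^ P := by
      intro n
      rw [← Real.rpow_natCast, ← Real.rpow_mul (mul_nonneg (hs n).le (norm_nonneg _))]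
      congr 1
      rw [hq]; push_cast; ring
    simp only [h3] at h2
    refine h2.trans ?_
    rw [← hNP]
    exact Real.rpow_le_rpow (sum_nonneg fun n _ => by positivity) e6 (by linarith)
  have e8 : ∑ n, δ n * (t n ^ 2 * ‖x n‖ ^ 2) ^ q ≤ 2 * N ^ P := by
    have h3 : ∀ n, δ n * (t n ^ 2 * ‖x n‖ ^ 2) ^ q ≤ ‖x n‖ ^ P + (s n * ‖x n‖) ^ P := by
      intro n
      have h4 : (t n ^ 2 * ‖x n‖ ^ 2) ^ q = t n ^ P * ‖x n‖ ^ P := by
        rw [← mul_pow, ← Real.rpow_natCast, ← Real.rpow_mul (mul_nonneg (ht n) (norm_nonneg _)),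
          ← Real.mul_rpow (ht n) (norm_nonneg _)]
        congr 1
        rw [hq]; push_cast; ring
      rw [h4, Real.mul_rpow (hs n).le (norm_nonneg _), ← mul_assoc]
      have h5 := mul_le_mul_of_nonneg_right (htp n) (Real.rpow_nonneg (norm_nonneg (x n)) P)
      linarith
    refine (sum_le_sum fun n _ => h3 n).trans ?_
    rw [sum_add_distrib]
    linarith
  have e9 : ∑ n, δ n * (t n ^ 2 * ‖x n‖ ^ 2) ≤ N ^ 2 := by
    refine le_trans (le_of_eq (sum_congr rfl fun n _ => ?_)) e6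
    rw [mul_pow, ← hts n]; ring
  have e10 : ∑ ξ, wt δ ξ * bS (fun n => t n ^ 2 * ‖x n‖ ^ 2) ξ ^ q ≤ D * N ^ P := by
    refine e4.trans (max_le ?_ ?_)
    · have h6 : 0 ≤ ((2 : ℝ) ^ q) ^ q * N ^ P := by positivity
      have h7 : (2 : ℝ) ^ q * ∑ n, δ n * (t n ^ 2 * ‖x n‖ ^ 2) ^ q ≤ 2 ^ q * (2 * N ^ P) :=
        mul_le_mul_of_nonneg_left e8 (by positivity)
      rw [hD]; linarith
    · have h6 : 0 ≤ (2 : ℝ) ^ q * 2 * N ^ P := by positivity
      have h8 : 0 ≤ ∑ n, δ n * (t n ^ 2 * ‖x n‖ ^ 2) :=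
        sum_nonneg fun n _ => mul_nonneg (h0 n) (by positivity)
      have h7 : ((2 : ℝ) ^ q * ∑ n, δ n * (t n ^ 2 * ‖x n‖ ^ 2)) ^ q ≤
          (2 ^ q * N ^ 2) ^ q :=
        Real.rpow_le_rpow (by positivity) (mul_le_mul_of_nonneg_left e9 (by positivity))
          (by linarith)
      rw [Real.mul_rpow (x := (2 : ℝ) ^ q) (y := N ^ 2) (by positivity) (by positivity),
        hNP] at h7
      rw [hD]; linarith
  have e11 : ∑ ω, ‖aa P δ t x ω‖ ^ P ≤ B ^ P * (D * N ^ P) := by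
    rw [e1]
    exact e2.trans (mul_le_mul_of_nonneg_left e10 (by positivity))
  have e12 := Real.rpow_le_rpow (sum_nonneg fun ω _ => by positivity) e11
    (z := 1 / P) (by positivity)
  refine e12.trans (le_of_eq ?_)
  rw [Real.mul_rpow (by positivity) (by positivity), Real.mul_rpow (by positivity) (by positivity),
    ← Real.rpow_mul (by positivity), ← Real.rpow_mul hN0, mul_one_div_cancel hP0.ne',
    Real.rpow_one, Real.rpow_one]
  ring

/-! ### lower estimate -/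

lemma pairing {P Q : ℝ} (hPQ : P.HolderConjugate Q) {δ t s : Fin m → ℝ}
    (h0 : ∀ n, 0 ≤ δ n) (h1 : ∀ n, δ n ≤ 1) (y : Om r → ℂ) (h : JJ r → ℂ) :
    ‖∑ j : JJ r, h j * qq Q δ t s y j.1 j.2‖ ≤ (∑ ω, ‖y ω‖ ^ P) ^ (1 / P) *
      (∑ ω, WW r δ ω * ‖∑ j : JJ r, (h j * ((s j.1 : ℂ) ^ 2)⁻¹) * XX t j ω‖ ^ Q) ^ (1 / Q) := by
  have hQ0 : 0 < Q := hPQ.symm.pos
  have e1 : ∑ j : JJ r, h j * qq Q δ t s y j.1 j.2 =
      ∑ ω, y ω * ((((WW r δ ω) ^ (1 / Q) : ℝ) : ℂ) *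
        ∑ j : JJ r, (h j * ((s j.1 : ℂ) ^ 2)⁻¹) * XX t j ω) := by
    have e2 : ∀ j : JJ r, h j * qq Q δ t s y j.1 j.2 = ∑ ω,
        y ω * ((((WW r δ ω) ^ (1 / Q) : ℝ) : ℂ) * ((h j * ((s j.1 : ℂ) ^ 2)⁻¹) * XX t j ω)) := by
      intro j
      rw [qq_apply, mul_sum, mul_sum]
      refine sum_congr rfl fun ω _ => ?_
      ring
    simp only [e2]
    rw [sum_comm]
    refine sum_congr rfl fun ω _ => ?_
    rw [← mul_sum, ← mul_sum]
  rw [e1]
  refine (norm_sum_le _ _).trans ?_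
  simp only [norm_mul]
  have e3 := Real.inner_le_Lp_mul_Lq_of_nonneg univ hPQ (f := fun ω => ‖y ω‖)
    (g := fun ω => ‖(((WW r δ ω) ^ (1 / Q) : ℝ) : ℂ)‖ *
      ‖∑ j : JJ r, (h j * ((s j.1 : ℂ) ^ 2)⁻¹) * XX t j ω‖)
    (fun ω _ => norm_nonneg _) (fun ω _ => by positivity)
  refine e3.trans (le_of_eq ?_)
  congr 2
  refine sum_congr rfl fun ω _ => ?_
  have hw := WW_nonneg (r := r) h0 h1 ω
  rw [Complex.norm_real, Real.norm_of_nonneg (Real.rpow_nonneg hw _),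
    Real.mul_rpow (Real.rpow_nonneg hw _) (norm_nonneg _), ← Real.rpow_mul hw,
    one_div_mul_cancel hQ0.ne', Real.rpow_one]

lemma le_of_self_bound {R Y P Q : ℝ} (hPQ : P.HolderConjugate Q) (hR : 0 ≤ R) (hY : 0 ≤ Y)
    (h : R ≤ Y * R ^ (1 / Q)) : R ^ (1 / P) ≤ Y := by
  rcases hR.eq_or_lt with hR | hR
  · rw [← hR, Real.zero_rpow (one_div_pos.2 hPQ.pos).ne']
    exact hY
  · have e1 : R = R ^ (1 / P) * R ^ (1 / Q) := by
      rw [← Real.rpow_add hR, one_div, one_div, hPQ.inv_add_inv_eq_one, Real.rpow_one]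
    have e2 : 0 < R ^ (1 / Q) := Real.rpow_pos_of_pos hR _
    have e3 : R ^ (1 / P) * R ^ (1 / Q) ≤ Y * R ^ (1 / Q) := by
      rw [← e1]; exact h
    exact le_of_mul_le_mul_right e3 e2

lemma lower (hK : KhStmt) {P Q : ℝ} (hP : 2 < P) (hPQ : P.HolderConjugate Q)
    {δ t s : Fin m → ℝ} (h0 : ∀ n, 0 ≤ δ n) (h1 : ∀ n, δ n ≤ 1)
      (ht : ∀ n, 0 ≤ t n) (hs : ∀ n, 0 < s n) (hts : ∀ n, δ n * t n ^ 2 = s n ^ 2)
      (htq : ∀ n, δ n * t n ^ Q ≤ (s n ^ 2) ^ Q) (y : Om r → ℂ) :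
      NN P s (qq Q δ t s y) ≤ (∑ ω, ‖y ω‖ ^ P) ^ (1 / P) := by
  set Y := (∑ ω, ‖y ω‖ ^ P) ^ (1 / P) with hYdef
  have hY : 0 ≤ Y := Real.rpow_nonneg (sum_nonneg fun ω _ => by positivity) _
  set c := qq Q δ t s y with hc
  have hP0 : 0 < P := by linarith
  have hQ0 : 0 < Q := hPQ.symm.pos
  have hQ1 : 1 ≤ Q := hPQ.symm.lt.le
  have hQ2 : Q ≤ 2 := by
    have h2 := hPQ.inv_add_inv_eq_one
    have h3 : P⁻¹ < 2⁻¹ := (inv_lt_inv₀ hP0 (by norm_num)).2 hP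
    have h4 : (2 : ℝ)⁻¹ ≤ Q⁻¹ := by norm_num at h3 ⊢; linarith
    exact (inv_le_inv₀ (by norm_num) hQ0).1 h4
  refine max_le ?_ ?_
  · -- duality
    set R := ∑ n, ‖c n‖ ^ P with hR
    have hR0 : 0 ≤ R := sum_nonneg fun n _ => by positivity
    have e1 := pairing (s := s) (t := t) hPQ h0 h1 y
      (fun j : JJ r => (starRingEnd ℂ) (c j.1 j.2) * ((‖c j.1‖ ^ (P - 2) : ℝ) : ℂ))
    rw [← hc] at e1
    have e2 : ∑ j : JJ r, (starRingEnd ℂ) (c j.1 j.2) * ((‖c j.1‖ ^ (P - 2) : ℝ) : ℂ) *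
        c j.1 j.2 = (R : ℂ) := by
      rw [Fintype.sum_sigma, hR]
      push_cast
      refine sum_congr rfl fun n _ => ?_
      have e3 : ‖c n‖ ^ P = ‖c n‖ ^ (P - 2) * ‖c n‖ ^ 2 := by
        rw [← Real.rpow_natCast, ← Real.rpow_add' (norm_nonneg _)]
        · congr 1; push_cast; ring
        · push_cast; linarith
      rw [e3, EuclideanSpace.norm_sq_eq]
      push_cast
      rw [mul_sum]
      refine sum_congr rfl fun i _ => ?_
      rw [← Complex.mul_conj']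
      ring
    have e1' : R ≤ Y * (∑ ω, WW r δ ω * ‖∑ j : JJ r, ((starRingEnd ℂ) (c j.1 j.2) *
        ((‖c j.1‖ ^ (P - 2) : ℝ) : ℂ) * ((s j.1 : ℂ) ^ 2)⁻¹) * XX t j ω‖ ^ Q) ^ (1 / Q) := by
      rw [e2, Complex.norm_real, Real.norm_of_nonneg hR0] at e1
      exact e1
    have e4 := dual_est hK hQ1 hQ2 h0 h1 ht (fun j : JJ r => (starRingEnd ℂ) (c j.1 j.2) *
        ((‖c j.1‖ ^ (P - 2) : ℝ) : ℂ) * ((s j.1 : ℂ) ^ 2)⁻¹)
    have e5 : ∑ n, δ n * t n ^ Q * (∑ i, ‖(starRingEnd ℂ) (c n i) *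
        ((‖c n‖ ^ (P - 2) : ℝ) : ℂ) * ((s n : ℂ) ^ 2)⁻¹‖ ^ 2) ^ (Q / 2) ≤ R := by
      refine sum_le_sum fun n _ => ?_
      have e6 : ∑ i, ‖(starRingEnd ℂ) (c n i) *
        ((‖c n‖ ^ (P - 2) : ℝ) : ℂ) * ((s n : ℂ) ^ 2)⁻¹‖ ^ 2 =
          (‖c n‖ ^ (P - 1) * (s n ^ 2)⁻¹) ^ 2 := by
        have e7 : ‖c n‖ ^ (P - 1) = ‖c n‖ ^ (P - 2) * ‖c n‖ := by
          rw [← Real.rpow_add_one' (norm_nonneg _) (by linarith)]
          congr 1; ring
        rw [e7, mul_pow, mul_pow, EuclideanSpace.norm_sq_eq, mul_sum, sum_mul]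
        refine sum_congr rfl fun i _ => ?_
        rw [norm_mul, norm_mul, RCLike.norm_conj, Complex.norm_real,
          Real.norm_of_nonneg (Real.rpow_nonneg (norm_nonneg _) _), norm_inv, norm_pow,
          Complex.norm_real, Real.norm_of_nonneg (hs n).le]
        ring
      rw [e6]
      have e8 : 0 ≤ ‖c n‖ ^ (P - 1) * (s n ^ 2)⁻¹ := by positivity
      have e9 : ((‖c n‖ ^ (P - 1) * (s n ^ 2)⁻¹) ^ 2) ^ (Q / 2) =
          ‖c n‖ ^ P * ((s n ^ 2) ^ Q)⁻¹ := by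
        rw [← Real.rpow_natCast, ← Real.rpow_mul e8,
          show ((2 : ℕ) : ℝ) * (Q / 2) = Q by push_cast; ring,
          Real.mul_rpow (by positivity) (by positivity), ← Real.rpow_mul (norm_nonneg _),
          Real.inv_rpow (by positivity)]
        congr 2
        have := hPQ.sub_one_mul_conj
        exact this
      rw [e9]
      have e10 : 0 < (s n ^ 2) ^ Q := Real.rpow_pos_of_pos (pow_pos (hs n) 2) _
      calc δ n * t n ^ Q * (‖c n‖ ^ P * ((s n ^ 2) ^ Q)⁻¹)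
          = (δ n * t n ^ Q) * ((s n ^ 2) ^ Q)⁻¹ * ‖c n‖ ^ P := by ring
        _ ≤ (s n ^ 2) ^ Q * ((s n ^ 2) ^ Q)⁻¹ * ‖c n‖ ^ P := by
          refine mul_le_mul_of_nonneg_right (mul_le_mul_of_nonneg_right (htq n) ?_) ?_
          · positivity
          · positivity
        _ = ‖c n‖ ^ P := by rw [mul_inv_cancel₀ e10.ne', one_mul]
    have e11 : R ≤ Y * R ^ (1 / Q) := by
      refine e1'.trans (mul_le_mul_of_nonneg_left ?_ hY)
      refine Real.rpow_le_rpow (sum_nonneg fun ω _ =>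
        mul_nonneg (WW_nonneg h0 h1 ω) (by positivity)) (e4.trans e5) (by positivity)
    exact le_of_self_bound hPQ hR0 hY e11
  · -- Bessel
    set T := ∑ n, (s n * ‖c n‖) ^ 2 with hT
    have hT0 : 0 ≤ T := sum_nonneg fun n _ => by positivity
    have e1 := pairing (s := s) (t := t) hPQ h0 h1 y
      (fun j : JJ r => (starRingEnd ℂ) (c j.1 j.2) * (s j.1 : ℂ) ^ 2)
    rw [← hc] at e1
    have e2 : ∑ j : JJ r, (starRingEnd ℂ) (c j.1 j.2) * (s j.1 : ℂ) ^ 2 *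
        c j.1 j.2 = (T : ℂ) := by
      rw [Fintype.sum_sigma, hT]
      push_cast
      refine sum_congr rfl fun n _ => ?_
      have e3 : ((‖c n‖ : ℂ)) ^ 2 = ∑ i, c n i * (starRingEnd ℂ) (c n i) := by
        have := EuclideanSpace.norm_sq_eq (c n)
        have h2 : ((‖c n‖ ^ 2 : ℝ) : ℂ) = ((∑ i, ‖c n i‖ ^ 2 : ℝ) : ℂ) := by rw [this]
        push_cast at h2
        rw [h2]
        refine sum_congr rfl fun i _ => ?_
        rw [Complex.mul_conj']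
      rw [mul_pow, e3, mul_sum]
      refine sum_congr rfl fun i _ => ?_
      ring
    have e4 : ∀ ω : Om r, ∑ j : JJ r, ((starRingEnd ℂ) (c j.1 j.2) * (s j.1 : ℂ) ^ 2 *
        ((s j.1 : ℂ) ^ 2)⁻¹) * XX t j ω = ∑ j : JJ r, (starRingEnd ℂ) (c j.1 j.2) * XX t j ω := by
      intro ω
      refine sum_congr rfl fun j _ => ?_
      have : (s j.1 : ℂ) ≠ 0 := by exact_mod_cast (hs j.1).ne'
      field_simp
    rw [e2, Complex.norm_real, Real.norm_of_nonneg hT0] at e1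
    simp only [e4] at e1
    have e5 := second_moment (r := r) hts (fun j : JJ r => (starRingEnd ℂ) (c j.1 j.2))
    have e6 : ∑ n, s n ^ 2 * ∑ i, ‖(starRingEnd ℂ) (c n i)‖ ^ 2 = T := by
      rw [hT]
      refine sum_congr rfl fun n _ => ?_
      simp only [RCLike.norm_conj]
      rw [← EuclideanSpace.norm_sq_eq, mul_pow]
    rw [e6] at e5
    have e7 := Real.rpow_arith_mean_le_arith_mean_rpow univ (fun ω => WW r δ ω)
      (fun ω => ‖∑ j : JJ r, (starRingEnd ℂ) (c j.1 j.2) * XX t j ω‖ ^ Q)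
      (fun ω _ => WW_nonneg h0 h1 ω) (sum_WW_one δ) (fun ω _ => by positivity)
      (p := 2 / Q) (by rw [le_div_iff₀ hQ0]; linarith)
    have e8 : ∀ ω : Om r, (‖∑ j : JJ r, (starRingEnd ℂ) (c j.1 j.2) * XX t j ω‖ ^ Q) ^ (2 / Q) =
        ‖∑ j : JJ r, (starRingEnd ℂ) (c j.1 j.2) * XX t j ω‖ ^ 2 := by
      intro ω
      rw [← Real.rpow_mul (norm_nonneg _), ← Real.rpow_natCast]
      congr 1
      push_cast
      field_simp
    simp only [e8] at e7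
    rw [e5] at e7
    set Z := ∑ ω, WW r δ ω * ‖∑ j : JJ r, (starRingEnd ℂ) (c j.1 j.2) * XX t j ω‖ ^ Q with hZ
    have hZ0 : 0 ≤ Z := sum_nonneg fun ω _ => mul_nonneg (WW_nonneg h0 h1 ω) (by positivity)
    have e9 : Z ^ (1 / Q) ≤ T ^ (1 / (2 : ℝ)) := by
      have h3 := Real.rpow_le_rpow (Real.rpow_nonneg hZ0 _) e7 (z := 1 / 2) (by norm_num)
      rw [← Real.rpow_mul hZ0] at h3
      have h4 : 2 / Q * (1 / 2) = 1 / Q := by field_simp
      rw [h4] at h3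
      exact h3
    have e10 : T ≤ Y * T ^ (1 / (2 : ℝ)) := e1.trans (mul_le_mul_of_nonneg_left e9 hY)
    rw [Real.sqrt_eq_rpow]
    exact le_of_self_bound Real.HolderConjugate.two_two hT0 hY e10

/-! ### the choice of the variables -/

lemma choice {P Q s : ℝ} (hP : 2 < P) (hPQ : P.HolderConjugate Q) (hs : 0 < s) :
    ∃ δ t : ℝ, 0 ≤ δ ∧ δ ≤ 1 ∧ 0 ≤ t ∧ δ * t ^ 2 = s ^ 2 ∧ δ * t ^ P ≤ 1 + s ^ P ∧
      δ * t ^ Q ≤ (s ^ 2) ^ Q := by
  have hP0 : 0 < P := by linarith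
  have hQ1 : 1 < Q := hPQ.symm.lt
  by_cases h : 1 ≤ s
  · refine ⟨1, s, zero_le_one, le_rfl, hs.le, one_mul _, by linarith, ?_⟩
    rw [one_mul]
    exact Real.rpow_le_rpow hs.le (by nlinarith) (by linarith)
  · push Not at h
    set δ : ℝ := s ^ (2 * P / (P - 2)) with hδ
    have hP2 : 0 < P - 2 := by linarith
    have hδ0 : 0 < δ := Real.rpow_pos_of_pos hs _
    have hδ1 : δ ≤ 1 := Real.rpow_le_one hs.le h.le (by positivity)
    have e1 : δ * (δ ^ (-(1 / P))) ^ 2 = s ^ 2 := by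
      rw [← Real.rpow_natCast, ← Real.rpow_mul hδ0.le]
      nth_rewrite 1 [← Real.rpow_one δ]
      rw [← Real.rpow_add hδ0, hδ, ← Real.rpow_mul hs.le, ← Real.rpow_natCast]
      congr 1
      push_cast
      field_simp
      ring
    have e2 : δ * (δ ^ (-(1 / P))) ^ P = 1 := by
      rw [← Real.rpow_mul hδ0.le]
      nth_rewrite 1 [← Real.rpow_one δ]
      rw [← Real.rpow_add hδ0]
      have : 1 + -(1 / P) * P = 0 := by field_simp; ring
      rw [this, Real.rpow_zero]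
    refine ⟨δ, δ ^ (-(1 / P)), hδ0.le, hδ1, by positivity, e1, ?_, ?_⟩
    · rw [e2]
      have : 0 < s ^ P := Real.rpow_pos_of_pos hs _
      linarith
    · rw [← e1, Real.mul_rpow hδ0.le (by positivity)]
      have ht0 : 0 < δ ^ (-(1 / P)) := Real.rpow_pos_of_pos hδ0 _
      have e3 : ((δ ^ (-(1 / P))) ^ 2) ^ Q = (δ ^ (-(1 / P))) ^ Q * (δ ^ (-(1 / P))) ^ Q := by
        rw [sq, Real.mul_rpow ht0.le ht0.le]
      rw [e3]
      have e4 : δ ^ Q * ((δ ^ (-(1 / P))) ^ Q * (δ ^ (-(1 / P))) ^ Q) =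
          (δ ^ Q * (δ ^ (-(1 / P))) ^ Q) * (δ ^ (-(1 / P))) ^ Q := by ring
      rw [e4]
      refine mul_le_mul_of_nonneg_right (le_of_eq ?_) (by positivity)
      rw [← Real.rpow_mul hδ0.le, ← Real.rpow_add hδ0]
      have e5 : Q + -(1 / P) * Q = 1 := by
        have h2 := hPQ.inv_add_inv_eq_one
        have h3 : P⁻¹ = 1 - Q⁻¹ := by linarith
        rw [one_div, h3]
        have hQ0 : Q ≠ 0 := by linarith
        field_simp
        ring
      rw [e5, Real.rpow_one]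

/-! ### final form -/

/-- the case `α = 1`, on a finite set -/
lemma core (hK : KhStmt) {P Q : ℝ} (hP : 2 < P) (hPQ : P.HolderConjugate Q) : ∃ K : ℝ, 1 ≤ K ∧
    ∀ (m : ℕ) (r : Fin m → ℕ) (s : Fin m → ℝ) (_ : ∀ n, 0 < s n),
      ∃ (a : VV r →ₗ[ℂ] (Om r → ℂ)) (q : (Om r → ℂ) →ₗ[ℂ] VV r),
        (∀ x, q (a x) = x) ∧ (∀ x, (∑ ω, ‖a x ω‖ ^ P) ^ (1 / P) ≤ K * NN P s x) ∧
        (∀ y, NN P s (q y) ≤ K * (∑ ω, ‖y ω‖ ^ P) ^ (1 / P)) := by
  obtain ⟨K, hK1, hup⟩ := upper hK hP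
  refine ⟨K, hK1, ?_⟩
  intro m r s hs
  choose δ t h0 h1 ht hts htp htq using fun n => choice hP hPQ (hs n)
  refine ⟨aa P δ t, qq Q δ t s, qa hPQ h0 h1 hs hts, hup m r δ t s h0 h1 ht hs hts htp, ?_⟩
  intro y
  refine (lower hK hP hPQ h0 h1 ht hs hts htq y).trans ?_
  exact le_mul_of_one_le_left (Real.rpow_nonneg (sum_nonneg fun ω _ => by positivity) _) hK1

/-- Module ROS. -/
theorem ros (hK : KhStmt) : RosStmt := by
  intro p _ hp hp'
  have hP : 2 < p.toReal := by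
    have := (ENNReal.toReal_lt_toReal (by norm_num) hp').2 hp
    simpa using this
  set P := p.toReal with hPdef
  have hP0 : 0 < P := by linarith
  have hPQ : P.HolderConjugate P.conjExponent := Real.HolderConjugate.conjExponent (by linarith)
  obtain ⟨K, hK1, hcore⟩ := core hK hP hPQ
  refine ⟨K, ?_⟩
  -- the case `α = 1`
  have key : ∀ (m : ℕ) (r : Fin m → ℕ) (s : Fin m → ℝ), (∀ n, 0 < s n) →
      ∃ (L : ℕ) (a : (∀ n, EuclideanSpace ℂ (Fin (r n))) →ₗ[ℂ] (Fin L → ℂ))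
      (q : (Fin L → ℂ) →ₗ[ℂ] (∀ n, EuclideanSpace ℂ (Fin (r n)))),
      (∀ x, q (a x) = x) ∧ (∀ x, lpn p (a x) ≤ K * rosNorm p s 1 x) ∧
      (∀ y, rosNorm p s 1 (q y) ≤ K * lpn p y) := by
    intro m r s hs
    obtain ⟨a, q, h1, h2, h3⟩ := hcore m r s hs
    set eL := Fintype.equivFin (Om r) with heL
    set E : (Om r → ℂ) ≃ₗ[ℂ] (Fin (Fintype.card (Om r)) → ℂ) :=
      LinearEquiv.funCongrLeft ℂ ℂ eL.symm with hE
    have hEa : ∀ (y : Om r → ℂ) l, E y l = y (eL.symm l) := fun y l => rfl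
    have hEs : ∀ (y : Fin (Fintype.card (Om r)) → ℂ) ω, E.symm y ω = y (eL ω) := by
      intro y ω
      rfl
    have hr : ∀ x : VV r, rosNorm p s 1 x = NN P s x := by
      intro x
      unfold rosNorm NN
      rw [one_mul]
    refine ⟨_, E.toLinearMap ∘ₗ a, q ∘ₗ E.symm.toLinearMap, ?_, ?_, ?_⟩
    · intro x
      change q (E.symm (E (a x))) = x
      rw [LinearEquiv.symm_apply_apply, h1]
    · intro x
      rw [hr]
      refine le_trans (le_of_eq ?_) (h2 x)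
      unfold lpn
      congr 1
      exact Equiv.sum_comp eL.symm (fun ω => ‖a x ω‖ ^ P)
    · intro y
      rw [hr]
      refine (h3 (E.symm y)).trans (le_of_eq ?_)
      unfold lpn
      congr 2
      exact Equiv.sum_comp eL (fun l => ‖y l‖ ^ P)
  -- scaling
  have scal : ∀ (m : ℕ) (r : Fin m → ℕ) (s s' : Fin m → ℝ) (α c : ℝ), 0 < c →
      (∀ n, 0 < s' n) →
      (∀ x : VV r, rosNorm p s α x = rosNorm p s' 1 ((c : ℂ) • x)) →
      ∃ (L : ℕ) (a : (∀ n, EuclideanSpace ℂ (Fin (r n))) →ₗ[ℂ] (Fin L → ℂ))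
      (q : (Fin L → ℂ) →ₗ[ℂ] (∀ n, EuclideanSpace ℂ (Fin (r n)))),
      (∀ x, q (a x) = x) ∧ (∀ x, lpn p (a x) ≤ K * rosNorm p s α x) ∧
      (∀ y, rosNorm p s α (q y) ≤ K * lpn p y) := by
    intro m r s s' α c hc hs' hN
    obtain ⟨L, a, q, h1, h2, h3⟩ := key m r s' hs'
    have hc' : (c : ℂ) ≠ 0 := by exact_mod_cast hc.ne'
    refine ⟨L, (c : ℂ) • a, (c : ℂ)⁻¹ • q, ?_, ?_, ?_⟩
    · intro x
      change (c : ℂ)⁻¹ • q ((c : ℂ) • a x) = x
      rw [map_smul, h1, smul_smul, inv_mul_cancel₀ hc', one_smul]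
    · intro x
      rw [hN]
      change lpn p ((c : ℂ) • a x) ≤ _
      rw [← map_smul]
      exact h2 _
    · intro y
      rw [hN]
      change rosNorm p s' 1 ((c : ℂ) • ((c : ℂ)⁻¹ • q y)) ≤ _
      rw [smul_smul, mul_inv_cancel₀ hc', one_smul]
      exact h3 y
  intro m r s hs α hα
  rcases hα.eq_or_lt with hα | hα
  · -- `α = 0`
    subst hα
    obtain ⟨c, hc, hcs⟩ : ∃ c : ℝ, 0 < c ∧ ∀ n, c ≤ s n := by
      rcases Nat.eq_zero_or_pos m with hm | hm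
      · subst hm
        exact ⟨1, one_pos, fun n => n.elim0⟩
      · have : Nonempty (Fin m) := ⟨⟨0, hm⟩⟩
        obtain ⟨n₀, hn₀⟩ := Finite.exists_min s
        exact ⟨s n₀, hs n₀, hn₀⟩
    refine scal m r s (fun n => s n / c) 0 c hc (fun n => div_pos (hs n) hc) ?_
    intro x
    unfold rosNorm
    rw [zero_mul, one_mul, ← hPdef]
    have e1 : ∀ n, s n / c * ‖((c : ℂ) • x) n‖ = s n * ‖x n‖ := by
      intro n
      rw [Pi.smul_apply, norm_smul, Complex.norm_real, Real.norm_of_nonneg hc.le]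
      field_simp
    simp only [e1]
    rw [max_eq_right (Real.sqrt_nonneg _), max_eq_right]
    have e2 : ∑ n, ‖((c : ℂ) • x) n‖ ^ P ≤ (∑ n, (s n * ‖x n‖) ^ 2) ^ (P / 2) := by
      have h2 := sum_rpow_le_rpow_sum univ (fun n => (s n * ‖x n‖) ^ 2)
        (fun n _ => by positivity) (q := P / 2) (by linarith)
      refine le_trans (sum_le_sum fun n _ => ?_) h2
      have h3 : ((s n * ‖x n‖) ^ 2) ^ (P / 2) = (s n * ‖x n‖) ^ P := by
        rw [← Real.rpow_natCast, ← Real.rpow_mul (mul_nonneg (hs n).le (norm_nonneg _))]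
        congr 1
        push_cast; ring
      rw [h3, Pi.smul_apply, norm_smul, Complex.norm_real, Real.norm_of_nonneg hc.le]
      exact Real.rpow_le_rpow (by positivity)
        (mul_le_mul_of_nonneg_right (hcs n) (norm_nonneg _)) hP0.le
    have e3 := Real.rpow_le_rpow (sum_nonneg fun n _ => by positivity) e2
      (z := 1 / P) (by positivity)
    refine e3.trans (le_of_eq ?_)
    rw [← Real.rpow_mul (sum_nonneg fun n _ => by positivity), Real.sqrt_eq_rpow]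
    congr 1
    field_simp
  · refine scal m r s (fun n => s n / α) α α hα (fun n => div_pos (hs n) hα) ?_
    intro x
    unfold rosNorm
    rw [one_mul, ← hPdef]
    have e1 : ∀ n, s n / α * ‖((α : ℂ) • x) n‖ = s n * ‖x n‖ := by
      intro n
      rw [Pi.smul_apply, norm_smul, Complex.norm_real, Real.norm_of_nonneg hα.le]
      field_simp
    simp only [e1]
    congr 1
    have e2 : ∀ n, ‖((α : ℂ) • x) n‖ ^ P = α ^ P * ‖x n‖ ^ P := by
      intro n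
      rw [Pi.smul_apply, norm_smul, Complex.norm_real, Real.norm_of_nonneg hα.le,
        Real.mul_rpow hα.le (norm_nonneg _)]
    simp only [e2]
    rw [← mul_sum, Real.mul_rpow (by positivity) (sum_nonneg fun n _ => by positivity),
      ← Real.rpow_mul hα.le, mul_one_div_cancel hP0.ne', Real.rpow_one]

end Pool.Agent.H20.BDFP
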